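import Pool.Agent.MP_66cee2_co.XT.Spec

/-! Double means of a function that agrees with a continuous one on generic points. -/

namespace Pool.Agent.MP_66cee2_co.XT

open Finset

namespace AVGA

theorem av_sub (j : ℕ) (g : ℕ → ℝ) (c : ℝ) :
    av j g - c = (∑ i ∈ range (j + 1), (g i - c)) / ((j : ℝ) + 1) := by
  have h : (0 : ℝ) < (j : ℝ) + 1 := by positivity
  rw [av, sum_sub_distrib, sum_const, card_range, nsmul_eq_mul]
  push_cast
  field_simp

theorem av_close (j : ℕ) (g : ℕ → ℝ) (c η : ℝ) (h : ∀ i, i ≤ j → |g i - c| ≤ η) :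
    |av j g - c| ≤ η := by
  have h0 : (0 : ℝ) < (j : ℝ) + 1 := by positivity
  rw [av_sub, abs_div, abs_of_pos h0, div_le_iff₀ h0]
  calc |∑ i ∈ range (j + 1), (g i - c)| ≤ ∑ i ∈ range (j + 1), |g i - c| :=
        abs_sum_le_sum_abs _ _
    _ ≤ ∑ _i ∈ range (j + 1), η :=
        sum_le_sum fun i hi => h i (Nat.lt_succ_iff.mp (mem_range.mp hi))
    _ = η * ((j : ℝ) + 1) := by
        rw [sum_const, card_range, nsmul_eq_mul]; push_cast; ring

theorem av_bad (j m : ℕ) (g : ℕ → ℝ) (c η D : ℝ) (p : ℕ → Prop) (hη : 0 ≤ η) (hD : 0 ≤ D)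
    (hp : {i | i ≤ j ∧ ¬p i}.ncard ≤ m) (h : ∀ i, i ≤ j → p i → |g i - c| ≤ η)
    (h' : ∀ i, |g i - c| ≤ D) : |av j g - c| ≤ η + m * D / ((j : ℝ) + 1) := by
  classical
  have h0 : (0 : ℝ) < (j : ℝ) + 1 := by positivity
  have hc : ((range (j + 1)).filter fun i => ¬p i).card ≤ m := by
    rw [← Set.ncard_coe_finset]
    convert hp using 2
    ext i
    simp
  rw [av_sub, abs_div, abs_of_pos h0, div_le_iff₀ h0]
  calc |∑ i ∈ range (j + 1), (g i - c)| ≤ ∑ i ∈ range (j + 1), |g i - c| :=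
        abs_sum_le_sum_abs _ _
    _ ≤ ∑ i ∈ range (j + 1), (η + if ¬p i then D else 0) := by
        refine sum_le_sum fun i hi => ?_
        by_cases hi' : p i
        · simpa [hi'] using h i (Nat.lt_succ_iff.mp (mem_range.mp hi)) hi'
        · have := h' i
          simp only [hi', not_false_eq_true, if_true]
          linarith
    _ = η * ((j : ℝ) + 1) + (((range (j + 1)).filter fun i => ¬p i).card : ℝ) * D := by
        rw [sum_add_distrib, sum_const, card_range, nsmul_eq_mul, ← sum_filter, sum_const,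
          nsmul_eq_mul]
        push_cast; ring
    _ ≤ η * ((j : ℝ) + 1) + (m : ℝ) * D := by
        have : (((range (j + 1)).filter fun i => ¬p i).card : ℝ) ≤ m := by exact_mod_cast hc
        gcongr
    _ = (η + m * D / ((j : ℝ) + 1)) * ((j : ℝ) + 1) := by field_simp

end AVGA

theorem rowAVG : RowAVG := by
  intro K m pt hpt φ ψ u ε hψ hφ hg hε
  obtain ⟨B, hB⟩ := hφ
  obtain ⟨δ, hδ, hd⟩ := Metric.continuous_iff.mp hψ u (ε / 2) (by positivity)
  obtain ⟨N, hN⟩ := hpt.near (δ / 3) (by positivity)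
  have hB0 : 0 ≤ B := (abs_nonneg _).trans (hB 0)
  have hD : 0 ≤ B + |ψ u| := by positivity
  obtain ⟨M, hM⟩ := exists_nat_ge (m * (B + |ψ u|) / (ε / 2))
  refine ⟨max N M, fun j j' hj hj' v => ?_⟩
  refine AVGA.av_close _ _ _ _ fun i hi => ?_
  have h1 := AVGA.av_bad j' m (fun i' => φ (pt j' i' (v + u) - pt j i v)) (ψ u) (ε / 2)
    (B + |ψ u|) (fun i' => Gen (pt j' i' (v + u) - pt j i v)) (by positivity) hD
    (hpt.gen j i j' v (v + u)) (fun i' hi' hG => by
      rw [hg _ hG]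
      refine (hd _ ?_).le
      have a1 := hN j' ((le_max_left _ _).trans hj') i' hi' (v + u)
      have a2 := hN j ((le_max_left _ _).trans hj) i hi v
      rw [dist_eq_norm, em_sub]
      have e : em (pt j' i' (v + u)) - em (pt j i v) - u =
          (em (pt j' i' (v + u)) - (v + u)) - (em (pt j i v) - v) := by abel
      rw [e]
      have := norm_sub_le (em (pt j' i' (v + u)) - (v + u)) (em (pt j i v) - v)
      linarith)
    (fun i' => by
      have := abs_sub (φ (pt j' i' (v + u) - pt j i v)) (ψ u)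
      have := hB (pt j' i' (v + u) - pt j i v)
      linarith)
  refine h1.trans ?_
  have h0 : (0 : ℝ) < (j' : ℝ) + 1 := by positivity
  have h2 : (M : ℝ) ≤ (j' : ℝ) := by exact_mod_cast (le_max_right _ _).trans hj'
  have h3 : m * (B + |ψ u|) / ((j' : ℝ) + 1) ≤ ε / 2 := by
    rw [div_le_iff₀ h0]
    rw [div_le_iff₀ (by positivity : (0 : ℝ) < ε / 2)] at hM
    nlinarith
  linarith

end Pool.Agent.MP_66cee2_co.XT
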