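import Pool.Agent.MP_66cee2_co.XT.Spec

/-! Row CHI: a positive weight that makes the rank one field square integrable. -/

namespace Pool.Agent.MP_66cee2_co.XT

open MeasureTheory Filter Topology

namespace CHIA

theorem shell {Ω : Type} [MeasurableSpace Ω] (ν : Measure Ω) (r : Ω → ℝ) (hr : Measurable r)
    (hf : ∀ R : ℝ, ν {w | r w ≤ R} ≠ ⊤) :
    ∃ t : ℕ → ℝ, (∀ k, 0 < t k) ∧ (∀ k, t k ≤ 1) ∧ Integrable (fun w => t ⌈r w⌉₊) ν := by
  let t : ℕ → ℝ := fun k => (1 / 2) ^ k / (1 + (ν {w | r w ≤ k}).toReal)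
  have t0 : ∀ k, 0 < t k := fun k => by positivity
  refine ⟨t, t0, fun k => ?_, ?_, ?_⟩
  · rw [div_le_one (by positivity)]
    have : (1 / 2 : ℝ) ^ k ≤ 1 := pow_le_one₀ (by norm_num) (by norm_num)
    have := ENNReal.toReal_nonneg (a := ν {w | r w ≤ k})
    linarith
  · exact ((measurable_from_top (f := t)).comp hr.nat_ceil).aestronglyMeasurable
  · rw [hasFiniteIntegral_iff_ofReal (Eventually.of_forall fun w => (t0 _).le)]
    have hm : ∀ k : ℕ, MeasurableSet {w | r w ≤ k} := fun k => measurableSet_le hr measurable_const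
    calc ∫⁻ w, ENNReal.ofReal (t ⌈r w⌉₊) ∂ν
        ≤ ∫⁻ w, ∑' k : ℕ, {w | r w ≤ k}.indicator (fun _ => ENNReal.ofReal (t k)) w ∂ν := by
          refine lintegral_mono fun w => le_trans (le_of_eq ?_) (ENNReal.le_tsum ⌈r w⌉₊)
          rw [Set.indicator_of_mem]
          exact Nat.le_ceil (r w)
      _ = ∑' k : ℕ, ENNReal.ofReal (t k) * ν {w | r w ≤ k} := by
          rw [lintegral_tsum fun k => (measurable_const.indicator (hm k)).aemeasurable]
          exact tsum_congr fun k => lintegral_indicator_const (hm k) _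
      _ ≤ ∑' k : ℕ, ENNReal.ofReal ((1 / 2) ^ k) := by
          refine ENNReal.tsum_le_tsum fun k => ?_
          rw [← ENNReal.ofReal_toReal (hf k), ← ENNReal.ofReal_mul (t0 k).le]
          refine ENNReal.ofReal_le_ofReal ?_
          have := ENNReal.toReal_nonneg (a := ν {w | r w ≤ k})
          simp only [t]
          rw [div_mul_eq_mul_div, div_le_iff₀ (by positivity)]
          gcongr
          linarith
      _ < ⊤ := by
          rw [← ENNReal.ofReal_tsum_of_nonneg (fun k => by positivity) summable_geometric_two]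
          exact ENNReal.ofReal_lt_top

end CHIA

theorem rowCHI : RowCHI := by
  intro K m n C ε O₁ O₂ ν ι _ F hS hF
  obtain ⟨t, t0, t1, ti⟩ := CHIA.shell ν (fun w : Om K m n => ‖w.1‖) (by fun_prop) hS.fin
  have hB : ∀ k : ℕ, ∃ B : ℝ, ∀ u ∈ Metric.closedBall (0 : Eu n) (C + 2 * k), ‖F u‖ ≤ B :=
    fun k => (isCompact_closedBall _ _).exists_bound_of_continuousOn hF.continuousOn
  choose B hB using hB
  let c : ℕ → ℝ := fun k => t k / (1 + B k ^ 2)
  have c0 : ∀ k, 0 < c k := fun k => div_pos (t0 k) (by positivity)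
  have hχ : Measurable fun a : Ec m => c ⌈‖a‖⌉₊ :=
    (measurable_from_top (f := c)).comp measurable_norm.nat_ceil
  refine ⟨fun a => c ⌈‖a‖⌉₊, hχ, fun R => ?_, fun a b => ?_⟩
  · obtain ⟨k, -, hk⟩ := (Finset.range (⌈R⌉₊ + 1)).exists_min_image c ⟨0, by simp⟩
    exact ⟨c k, c0 k, fun a ha =>
      hk _ (Finset.mem_range.2 (Nat.lt_succ_of_le (Nat.ceil_mono ha)))⟩
  · have hm := measurable_ev (K := K) (measurable_xi hχ hF a b) 0
    rw [memLp_two_iff_integrable_sq hm.aestronglyMeasurable]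
    refine ti.mono' (hm.pow_const 2).aestronglyMeasurable (hS.ae.mono fun w hw => ?_)
    have h1 := hw.2.1 0
    rw [em_zero, ps_zero] at h1
    have h2 : ‖F (w.2.2 0)‖ ≤ B ⌈‖w.1‖⌉₊ := hB _ _ (by
      rw [mem_closedBall_zero_iff]
      linarith [Nat.le_ceil ‖w.1‖])
    have h3 : ∀ e, |F (w.2.2 0) e| ≤ B ⌈‖w.1‖⌉₊ := fun e => (norm_le_pi_norm _ e).trans h2
    have h4 : |ev (xi (fun a : Ec m => c ⌈‖a‖⌉₊) F a b) (0 : Fin m → K) w| ≤ t ⌈‖w.1‖⌉₊ := by
      simp only [ev, xi, em_zero, ps_zero]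
      rw [abs_mul, abs_mul, abs_of_pos (c0 _)]
      have h5 : |F (w.2.2 0) a| * |F (w.2.2 0) b| ≤ 1 + B ⌈‖w.1‖⌉₊ ^ 2 := by
        have := mul_le_mul (h3 a) (h3 b) (abs_nonneg _) ((abs_nonneg _).trans (h3 a))
        nlinarith
      calc _ ≤ c ⌈‖w.1‖⌉₊ * (1 + B ⌈‖w.1‖⌉₊ ^ 2) := mul_le_mul_of_nonneg_left h5 (c0 _).le
        _ = _ := div_mul_cancel₀ _ (by positivity)
    rw [Real.norm_eq_abs, abs_pow]
    have h6 := abs_nonneg (ev (xi (fun a : Ec m => c ⌈‖a‖⌉₊) F a b) (0 : Fin m → K) w)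
    nlinarith [t1 ⌈‖w.1‖⌉₊]

end Pool.Agent.MP_66cee2_co.XT
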