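import Pool.Agent.MP_66cee2_co.XT.Spec

/-! The averaged fields are Cauchy, and asymptotically orthogonal at unit distance. -/

namespace Pool.Agent.MP_66cee2_co.XT

open MeasureTheory Filter Topology Matrix

namespace CAUA

variable {Ω : Type} [MeasurableSpace Ω] {ν : Measure Ω}

theorem mem_av {f : ℕ → Ω → ℝ} (hf : ∀ i, MemLp (f i) 2 ν) (j : ℕ) :
    MemLp (fun w => av j fun i => f i w) 2 ν := by
  simp only [av, div_eq_mul_inv]
  exact (memLp_finsetSum _ fun i _ => hf i).mul_const _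

theorem int_av {f g : ℕ → Ω → ℝ} (hf : ∀ i, MemLp (f i) 2 ν) (hg : ∀ i, MemLp (g i) 2 ν)
    (j j' : ℕ) : ∫ w, (av j fun i => f i w) * (av j' fun i => g i w) ∂ν =
      av j fun i => av j' fun i' => ∫ w, f i w * g i' w ∂ν := by
  have h : ∀ i i', Integrable (fun w => f i w * g i' w) ν := fun i i' =>
    (hf i).integrable_mul (hg i')
  have e : ∀ w, (av j fun i => f i w) * (av j' fun i => g i w) =
      av j fun i => av j' fun i' => f i w * g i' w := fun w => by
    simp only [av, ← Finset.mul_sum, mul_div_assoc, ← Finset.sum_mul]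
    ring
  simp only [e]
  simp only [av]
  rw [integral_div, integral_finsetSum _ fun i _ =>
    (integrable_finsetSum _ fun i' _ => h i i').div_const _]
  congr 1
  refine Finset.sum_congr rfl fun i _ => ?_
  rw [integral_div, integral_finsetSum _ fun i' _ => h i i']

theorem sq_le {x y : Ω → ℝ} (hx : MemLp x 2 ν) (hy : MemLp y 2 ν) {c η : ℝ}
    (h1 : |∫ w, x w * x w ∂ν - c| ≤ η / 4) (h2 : |∫ w, x w * y w ∂ν - c| ≤ η / 4)
    (h3 : |∫ w, y w * y w ∂ν - c| ≤ η / 4) : ∫ w, (x w - y w) ^ 2 ∂ν ≤ η := by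
  have i1 : Integrable (fun w => x w * x w) ν := hx.integrable_mul hx
  have i2 : Integrable (fun w => 2 * (x w * y w)) ν := (hx.integrable_mul hy).const_mul 2
  have i3 : Integrable (fun w => y w * y w) ν := hy.integrable_mul hy
  have i4 : Integrable (fun w => x w * x w - 2 * (x w * y w)) ν := i1.sub i2
  have e : ∀ w, (x w - y w) ^ 2 = x w * x w - 2 * (x w * y w) + y w * y w := fun w => by ring
  simp only [e]
  rw [integral_add i4 i3, integral_sub i1 i2, integral_const_mul]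
  linarith [(abs_le.1 h1).2, (abs_le.1 h2).1, (abs_le.1 h3).2]

variable {ι : Type} [Fintype ι] (J : Matrix ι ι ℝ)

theorem trace_eq (P Q : Matrix ι ι ℝ) : (P * J * Q * J).trace = ∑ t : ι × ι × ι × ι,
    J t.2.2.2 t.2.2.1 * J t.2.1 t.1 * (P t.1 t.2.2.2 * Q t.2.2.1 t.2.1) := by
  simp only [Matrix.trace, Matrix.diag, Matrix.mul_apply, Fintype.sum_prod_type, Finset.sum_mul]
  refine Finset.sum_congr rfl fun _ _ => Finset.sum_congr rfl fun _ _ =>
    Finset.sum_congr rfl fun _ _ => Finset.sum_congr rfl fun _ _ => by ring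

theorem int_sum {P Q : ι → ι → Ω → ℝ} (hP : ∀ a b, MemLp (P a b) 2 ν)
    (hQ : ∀ a b, MemLp (Q a b) 2 ν) :
    ∫ w, ∑ t : ι × ι × ι × ι,
      J t.2.2.2 t.2.2.1 * J t.2.1 t.1 * (P t.1 t.2.2.2 w * Q t.2.2.1 t.2.1 w) ∂ν =
    ∑ t : ι × ι × ι × ι,
      J t.2.2.2 t.2.2.1 * J t.2.1 t.1 * ∫ w, P t.1 t.2.2.2 w * Q t.2.2.1 t.2.1 w ∂ν := by
  rw [integral_finsetSum]
  · simp only [integral_const_mul]
  · exact fun t _ => ((hP _ _).integrable_mul (hQ _ _)).const_mul _

theorem sum_zero {x y : ι → ℝ} (h : x ⬝ᵥ J *ᵥ y = 0) (s s' : ℝ) : ∑ t : ι × ι × ι × ι,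
    J t.2.2.2 t.2.2.1 * J t.2.1 t.1 * (s * (x t.1 * x t.2.2.2) * (s' * (y t.2.2.1 * y t.2.1))) =
      0 := by
  have h0 : ∑ c, ∑ b, x b * (J b c * y c) = 0 := by
    rw [Finset.sum_comm]
    simpa only [dotProduct, mulVec, Finset.mul_sum] using h
  simp only [Fintype.sum_prod_type]
  refine Finset.sum_eq_zero fun a _ => Finset.sum_eq_zero fun d _ => ?_
  rw [← mul_zero (J d a * s * x a * s' * y d), ← h0, Finset.mul_sum]
  refine Finset.sum_congr rfl fun c _ => ?_
  rw [Finset.mul_sum]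
  exact Finset.sum_congr rfl fun b _ => by ring

end CAUA

open CAUA in
theorem ofCAU : OfCAU := by
  intro hC hS hA K m n C ε O₁ O₂ ν ι _ J g F χ pt hK hν hR hL hW hP
  have h := fun a b c d => hC K m n C ε O₁ O₂ ν hν hR _ _ (hW.mem a b) (hW.mem c d)
  have hm : ∀ a b (z : Fin m → K), MemLp (ev (xi χ F a b) z) 2 ν := fun a b => (h a b a b).1
  choose φ ψ hψ hB hg hi using fun a b c d => (h a b c d).2
  have hPJ : ∀ a b j v, MemLp (fun w => PJ χ F pt j v w a b) 2 ν := fun a b j v =>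
    mem_av (fun i => hm a b (pt j i v)) j
  have key : ∀ a b c d u η, 0 < η → ∃ N, ∀ j j', N ≤ j → N ≤ j' → ∀ v,
      |∫ w, PJ χ F pt j v w a b * PJ χ F pt j' (v + u) w c d ∂ν - ψ a b c d u| ≤ η := by
    intro a b c d u η hη
    obtain ⟨N, hN⟩ := hA K m pt hP _ _ u η (hψ a b c d) (hB a b c d) (hg a b c d) hη
    refine ⟨N, fun j j' hj hj' v => ?_⟩
    have := int_av (fun i => hm a b (pt j i v)) (fun i => hm c d (pt j' i (v + u))) j j'
    simp only [hi] at this
    exact this ▸ hN j j' hj hj' v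
  refine ⟨hPJ, fun a b η hη => ?_, fun v u hu => ?_⟩
  · obtain ⟨N, hN⟩ := key a b a b 0 (η / 4) (by positivity)
    simp only [add_zero] at hN
    exact ⟨N, fun j j' hj hj' v => sq_le (hPJ a b j v) (hPJ a b j' v) (hN j j hj hj v)
      (hN j j' hj hj' v) (hN j' j' hj' hj' v)⟩
  have h0 : ∑ t : ι × ι × ι × ι,
      J t.2.2.2 t.2.2.1 * J t.2.1 t.1 * ψ t.1 t.2.2.2 t.2.2.1 t.2.1 u = 0 := by
    have hc : IsClosed {x | ∑ t : ι × ι × ι × ι,
        J t.2.2.2 t.2.2.1 * J t.2.1 t.1 * ψ t.1 t.2.2.2 t.2.2.1 t.2.1 x = 0} :=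
      isClosed_eq (continuous_finsetSum _ fun t _ => continuous_const.mul (hψ _ _ _ _))
        continuous_const
    refine hc.closure_subset (Metric.mem_closure_iff.2 fun δ hδ => ?_)
    obtain ⟨z, hz, h1, h2⟩ := hS K m hK (δ / 2) (by positivity) u hu
    refine ⟨em z, ?_, by rw [dist_comm, dist_eq_norm]; linarith⟩
    have e : ∀ a b c d, ψ a b c d (em z) =
        ∫ w, ev (xi χ F a b) (0 : Fin m → K) w * ev (xi χ F c d) z w ∂ν := fun a b c d => by
      rw [hi, sub_zero, hg _ _ _ _ z hz]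
    simp only [Set.mem_ofPred_eq, e]
    rw [← int_sum J (fun a b => hm a b 0) fun a b => hm a b z]
    refine integral_eq_zero_of_ae (hν.ae.mono fun w hw => sum_zero J ?_ _ _)
    rw [hL.ip, hw.2.2.1 0 z (by rw [em_zero, zero_sub, norm_neg, h1])]
    norm_num
  simp only [trace_eq]
  rw [← h0]
  refine Tendsto.congr (fun j => (int_sum J (fun a b => hPJ a b j v)
    fun a b => hPJ a b j (v + u)).symm) (tendsto_finsetSum _ fun t _ => Tendsto.const_mul _ ?_)
  refine Metric.tendsto_atTop.2 fun η hη => ?_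
  obtain ⟨N, hN⟩ := key _ _ _ _ u (η / 2) (by positivity)
  exact ⟨N, fun j hj => (hN j j hj hj v).trans_lt (by linarith)⟩

end Pool.Agent.MP_66cee2_co.XT
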