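import Pool.Agent.MP_66cee2_co.XT.Spec

/-! Row FUN: an invariant positive functional on the configurations. -/

namespace Pool.Agent.MP_66cee2_co.XT

open Complex

noncomputable section

namespace FUNA

variable {K : Subfield ℂ} {m n : ℕ}

theorem mean_ge {G : Type} [AddCommGroup G] {M : (G → ℝ) → ℝ} (hM : Mean M) {φ : G → ℝ} {c : ℝ}
    (hb : Bd φ) (h : ∀ x, c ≤ φ x) : c ≤ M φ := by
  rw [← hM.const c]
  exact hM.mono _ _ ⟨|c|, fun _ => le_rfl⟩ hb h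

theorem mean_abs {G : Type} [AddCommGroup G] {M : (G → ℝ) → ℝ} (hM : Mean M) {φ : G → ℝ} {c : ℝ}
    (h : ∀ x, |φ x| ≤ c) : |M φ| ≤ c := by
  refine abs_le.2 ⟨mean_ge hM ⟨c, h⟩ fun x => (abs_le.1 (h x)).1, ?_⟩
  rw [← hM.const c]
  exact hM.mono _ _ ⟨c, h⟩ ⟨|c|, fun _ => le_rfl⟩ fun x => (abs_le.1 (h x)).2

/-- the orbit point -/
def W (f : Ec m → Eu n) (a l : Fin m → K) : Om K m n :=
  (em a, fun j => (l j : ℂ), fun z => f (em (a + l * z)))

theorem ps_W (f : Ec m → Eu n) (a l z : Fin m → K) : ps (W f a l) (em z) = em (a + l * z) := by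
  ext j; simp [ps, W]

theorem mv_W (f : Ec m → Eu n) (a l a' l' : Fin m → K) :
    mv a' l' (W f a l) = W f (a + l * a') (l * l') := by
  refine Prod.ext (ps_W f a l a') (Prod.ext ?_ ?_)
  · funext j; simp [mv, W]
  · funext z
    simp only [mv, W, mul_add, add_assoc, mul_assoc]

theorem W_mem {f : Ec m → Eu n} {C ε : ℝ} {O₁ O₂ : Set (Ec m)}
    (h1 : ∀ x y, ‖x - y‖ = 1 → ‖f x - f y‖ = 1) (h2 : ∀ x, ‖f x‖ ≤ C + 2 * ‖x‖)
    (h3 : ∀ p ∈ O₁, ∀ q ∈ O₂, ‖f p - f q‖ ≤ ‖p - q‖ - ε) (a : Fin m → K) {l : Fin m → K}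
    (hl : Un l) : W f a l ∈ XS C ε O₁ O₂ := by
  have e : ∀ z z' : Fin m → K, ‖em (a + l * z) - em (a + l * z')‖ = ‖em z - em z'‖ := by
    intro z z'
    rw [← ps_W f, ← ps_W f, ps_sub]
    exact norm_rot hl _
  refine ⟨hl, fun z => ?_, fun z z' h => h1 _ _ (by rw [e, h]), fun z z' h h' => ?_⟩
  · rw [ps_W]
    exact h2 _
  · rw [ps_W] at h h'
    rw [← e]
    exact h3 _ h _ h'

/-- lattice points -/
def ga (i : K) (r : Fin m → ℤ × ℤ) : Fin m → K := fun j => ((r j).1 : K) + ((r j).2 : K) * i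

/-- integer parts -/
def fl (a : Fin m → K) : Fin m → ℤ × ℤ := fun j => (⌊(a j : ℂ).re⌋, ⌊(a j : ℂ).im⌋)

/-- a box of lattice points -/
def bx (m N : ℕ) : Finset (Fin m → ℤ × ℤ) :=
  Fintype.piFinset fun _ => Finset.Icc (-(N : ℤ)) N ×ˢ Finset.Icc (-(N : ℤ)) N

theorem re_ga {i : K} (hi : (i : ℂ) = I) (r : Fin m → ℤ × ℤ) (a : Fin m → K) (j : Fin m) :
    (em (ga i r + a) j).re = (r j).1 + (a j : ℂ).re ∧
      (em (ga i r + a) j).im = (r j).2 + (a j : ℂ).im := by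
  simp [ga, hi]

theorem int_bd {k : ℤ} {x R : ℝ} (h : |k + x| ≤ R) :
    k + ⌊x⌋ ∈ Finset.Icc (-((⌈R⌉₊ + 1 : ℕ) : ℤ)) (⌈R⌉₊ + 1 : ℕ) := by
  obtain ⟨h1, h2⟩ := abs_le.1 h
  have h3 := Int.floor_le x
  have h4 := Int.lt_floor_add_one x
  have h5 := Nat.le_ceil R
  rw [Finset.mem_Icc, ← Int.cast_le (R := ℝ), ← Int.cast_le (R := ℝ)]
  push_cast
  constructor <;> linarith

theorem mem_bx {i : K} (hi : (i : ℂ) = I) {r : Fin m → ℤ × ℤ} {a : Fin m → K} {R : ℝ}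
    (h : ‖em (ga i r + a)‖ ≤ R) : r + fl a ∈ bx m (⌈R⌉₊ + 1) := by
  refine Fintype.mem_piFinset.2 fun j => ?_
  have h1 := (PiLp.norm_apply_le (em (ga i r + a)) j).trans h
  obtain ⟨e1, e2⟩ := re_ga hi r a j
  exact Finset.mem_product.2 ⟨int_bd (e1 ▸ (abs_re_le_norm _).trans h1),
    int_bd (e2 ▸ (abs_im_le_norm _).trans h1)⟩

theorem near {i : K} (hi : (i : ℂ) = I) (a : Fin m → K) :
    ‖em (ga i (-fl a) + a)‖ ≤ √(m * 2 ^ 2) := by
  rw [EuclideanSpace.norm_eq]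
  refine Real.sqrt_le_sqrt ((Finset.sum_le_card_nsmul _ _ (2 ^ 2) fun j _ => ?_).trans (by simp))
  refine pow_le_pow_left₀ (norm_nonneg _) ((norm_le_abs_re_add_abs_im _).trans ?_) 2
  obtain ⟨e1, e2⟩ := re_ga hi (-fl a) a j
  have k : ∀ x : ℝ, |((-⌊x⌋ : ℤ) : ℝ) + x| ≤ 1 := fun x => by
    have h3 := Int.floor_le x
    have h4 := Int.lt_floor_add_one x
    push_cast
    exact abs_le.2 ⟨by linarith, by linarith⟩
  rw [e1, e2, ← one_add_one_eq_two]
  exact add_le_add (k _) (k _)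

/-- the sum over the lattice -/
def Ph (f : Ec m → Eu n) (i : K) (φ : Om K m n → ℝ) (a l : Fin m → K) : ℝ :=
  ∑ᶠ r, φ (W f (ga i r + a) l)

theorem fin (f : Ec m → Eu n) {i : K} (hi : (i : ℂ) = I) {φ : Om K m n → ℝ} (h : Cl φ) :
    ∃ D : ℝ, ∀ a l : Fin m → K,
      (Function.support fun r => φ (W f (ga i r + a) l)).Finite ∧ |Ph f i φ a l| ≤ D := by
  classical
  obtain ⟨B, R, h⟩ := h
  refine ⟨(bx m (⌈R⌉₊ + 1)).card * B, fun a l => ?_⟩
  have hs : (Function.support fun r => φ (W f (ga i r + a) l)) ⊆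
      ((bx m (⌈R⌉₊ + 1)).image fun u => u - fl a : Finset _) := by
    intro r hr
    refine Finset.mem_coe.2 (Finset.mem_image.2 ⟨r + fl a, mem_bx hi ?_, add_sub_cancel_right _ _⟩)
    exact not_lt.1 fun h1 => hr ((h _).2 h1)
  refine ⟨(Finset.finite_toSet _).subset hs, ?_⟩
  rw [Ph, finsum_eq_sum_of_support_subset _ hs]
  refine (Finset.abs_sum_le_sum_abs _ _).trans
    ((Finset.sum_le_card_nsmul _ _ B fun r _ => (h _).1).trans ?_)
  rw [nsmul_eq_mul]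
  exact mul_le_mul_of_nonneg_right (Nat.cast_le.2 Finset.card_image_le)
    ((abs_nonneg _).trans (h (W f a l)).1)

/-- the group of rotations -/
def UG (K : Subfield ℂ) (m : ℕ) : Subgroup (Fin m → K)ˣ where
  carrier := {l | Un l.1}
  one_mem' := un_one
  mul_mem' := fun {a b} ha hb j => by
    simp only [Units.val_mul, Pi.mul_apply, Subfield.coe_mul, norm_mul, ha j, hb j, mul_one]
  inv_mem' := fun {a} ha j => by
    have h := congrArg (fun x : Fin m → K => ‖(x j : ℂ)‖) a.mul_inv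
    simpa only [Pi.mul_apply, Subfield.coe_mul, norm_mul, ha j, one_mul, Pi.one_apply,
      Subfield.coe_one, norm_one] using h

theorem ex_unit {l : Fin m → K} (hl : Un l) : ∃ u : UG K m, u.1.1 = l := by
  have h : ∀ j, l j ≠ 0 := fun j h0 => by
    have h1 := hl j
    rw [h0] at h1
    simp at h1
  exact ⟨⟨⟨l, l⁻¹, funext fun j => mul_inv_cancel₀ (h j), funext fun j => inv_mul_cancel₀ (h j)⟩,
    hl⟩, rfl⟩

end FUNA

open FUNA in
theorem ofFUN : OfFUN := by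
  intro hM K _ m n f C ε O₁ O₂ hK h1 h2 h3
  have hI : (I : ℂ) ∈ K := hK ⟨⟨0, by simp⟩, 1, by simp⟩
  obtain ⟨i, hi⟩ : ∃ i : K, (i : ℂ) = I := ⟨⟨I, hI⟩, rfl⟩
  have hc : Countable (Fin m → K)ˣ := Units.val_injective.countable
  have hc' : Countable (Additive (UG K m)) := (inferInstance : Countable (UG K m))
  obtain ⟨M₁, k1⟩ := hM (Fin m → K)
  obtain ⟨M₂, k2⟩ := hM (Additive (UG K m))
  have b1 : ∀ {φ : Om K m n → ℝ}, Cl φ → ∀ l, Bd fun a => Ph f i φ a l := fun h l =>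
    (fin f hi h).imp fun D hD a => (hD a l).2
  have b2 : ∀ {φ : Om K m n → ℝ}, Cl φ →
      Bd fun l : Additive (UG K m) => M₁ fun a => Ph f i φ a l.toMul.1.1 := fun h =>
    (fin f hi h).imp fun D hD l => mean_abs k1 fun a => (hD a _).2
  have fs : ∀ {φ : Om K m n → ℝ}, Cl φ → ∀ a l,
      (Function.support fun r => φ (W f (ga i r + a) l)).Finite := fun h a l =>
    (fin f hi h).elim fun D hD => (hD a l).1
  refine ⟨fun φ => M₂ fun l => M₁ fun a => Ph f i φ a l.toMul.1.1, fun φ ψ hφ hψ => ?_,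
    fun c φ hφ => ?_, fun φ hφ h0 => ?_, fun φ ψ h => ?_, fun φ a' l' hφ hl => ?_,
    √(m * 2 ^ 2), fun φ hφ h0 h => ?_⟩
  · rw [← k2.add _ _ (b2 hφ) (b2 hψ)]
    refine congrArg M₂ (funext fun l => ?_)
    rw [← k1.add _ _ (b1 hφ _) (b1 hψ _)]
    exact congrArg M₁ (funext fun a => finsum_add_distrib (fs hφ a _) (fs hψ a _))
  · rw [← k2.smul _ _ (b2 hφ)]
    refine congrArg M₂ (funext fun l => ?_)
    rw [← k1.smul _ _ (b1 hφ _)]
    exact congrArg M₁ (funext fun a => (mul_finsum _ c).symm)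
  · exact mean_ge k2 (b2 hφ) fun l => mean_ge k1 (b1 hφ _) fun a => finsum_nonneg fun r => h0 _
  · exact congrArg M₂ (funext fun l => congrArg M₁ (funext fun a =>
      finsum_congr fun r => h _ (W_mem h1 h2 h3 _ l.toMul.2)))
  · obtain ⟨u, rfl⟩ := ex_unit hl
    rw [← k2.inv _ (Additive.ofMul u) (b2 hφ)]
    refine congrArg M₂ (funext fun l => ?_)
    rw [← k1.inv _ (l.toMul.1.1 * a') (b1 hφ _)]
    refine congrArg M₁ (funext fun a => finsum_congr fun r => ?_)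
    beta_reduce
    rw [mv_W, add_assoc]
    rfl
  · refine mean_ge k2 (b2 hφ) fun l => mean_ge k1 (b1 hφ _) fun a => ?_
    exact (h _ (W_mem h1 h2 h3 _ l.toMul.2) (near hi a)).trans
      (single_le_finsum (f := fun r => φ (W f (ga i r + a) l.toMul.1.1)) _ (fs hφ a _)
        fun r => h0 _)

end

end Pool.Agent.MP_66cee2_co.XT
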