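import Pool.Agent.MP_66cee2_co.XT.Spec

/-! An invariant positive functional gives an invariant measure. -/

namespace Pool.Agent.MP_66cee2_co.XT

open MeasureTheory Filter Topology Set
open scoped CompactlySupported

namespace MEASA

variable {Ω : Type} [TopologicalSpace Ω]

open Classical in
/-- Extension by zero. -/
noncomputable def ex (S : Set Ω) (φ : S → ℝ) (w : Ω) : ℝ := if h : w ∈ S then φ ⟨w, h⟩ else 0

omit [TopologicalSpace Ω] in
theorem ex_mem {S : Set Ω} (φ : S → ℝ) {w : Ω} (h : w ∈ S) : ex S φ w = φ ⟨w, h⟩ := dif_pos h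

omit [TopologicalSpace Ω] in
theorem ex_not {S : Set Ω} (φ : S → ℝ) {w : Ω} (h : w ∉ S) : ex S φ w = 0 := dif_neg h

theorem ex_cl {S : Set Ω} {N : Ω → ℝ} (hN : Continuous N) (φ : C_c(S, ℝ)) :
    ∃ B R : ℝ, ∀ w, |ex S φ w| ≤ B ∧ (R < N w → ex S φ w = 0) := by
  obtain ⟨B, hB⟩ := φ.continuous.bounded_above_of_compact_support φ.hasCompactSupport
  obtain ⟨R, hR⟩ := φ.hasCompactSupport.isCompact.bddAbove_image
    (hN.comp continuous_subtype_val).continuousOn
  refine ⟨max B 0, R, fun w => ?_⟩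
  by_cases h : w ∈ S
  · rw [ex_mem _ h]
    refine ⟨(hB _).trans (le_max_left _ _), fun hw => ?_⟩
    by_contra h0
    exact absurd (hR ⟨⟨w, h⟩, subset_tsupport _ h0, rfl⟩) (not_le.2 hw)
  · rw [ex_not _ h]
    simp

theorem slab {S : Set Ω} {N : Ω → ℝ} (hc : ∀ R : ℝ, IsCompact {w | w ∈ S ∧ N w ≤ R}) (R : ℝ) :
    IsCompact {y : S | N y ≤ R} := by
  rw [Subtype.isCompact_iff]
  convert hc R using 1
  ext w
  simp [and_comm]

theorem abs_meas [T2Space Ω] [SecondCountableTopology Ω] [TopologicalSpace.PseudoMetrizableSpace Ω]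
    [MeasurableSpace Ω] [BorelSpace Ω] {S : Set Ω} {N : Ω → ℝ} (hN : Continuous N)
    (hS : IsClosed S) (hc : ∀ R : ℝ, IsCompact {w | w ∈ S ∧ N w ≤ R})
    (Cl : (Ω → ℝ) → Prop)
    (hCl : ∀ φ, (∃ B R : ℝ, ∀ w, |φ w| ≤ B ∧ (R < N w → φ w = 0)) → Cl φ)
    (Λ : (Ω → ℝ) → ℝ)
    (add : ∀ φ ψ, Cl φ → Cl ψ → Λ (fun w => φ w + ψ w) = Λ φ + Λ ψ)
    (smul : ∀ (c : ℝ) φ, Cl φ → Λ (fun w => c * φ w) = c * Λ φ)
    (pos : ∀ φ, Cl φ → (∀ w, 0 ≤ φ w) → 0 ≤ Λ φ)
    (congr : ∀ φ ψ, (∀ w ∈ S, φ w = ψ w) → Λ φ = Λ ψ)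
    (ne : ∃ R : ℝ, ∀ φ, Cl φ → (∀ w, 0 ≤ φ w) → (∀ w ∈ S, N w ≤ R → 1 ≤ φ w) → 1 ≤ Λ φ) :
    ∃ ν : Measure Ω, (∀ᵐ w ∂ν, w ∈ S) ∧ ν ≠ 0 ∧ (∀ R : ℝ, ν {w | N w ≤ R} ≠ ⊤) ∧
      ∀ (T : Ω → Ω) (c : ℝ), Continuous T → (∀ w ∈ S, T w ∈ S ∧ N w ≤ N (T w) + c) →
        (∀ φ, Cl φ → Λ (fun w => φ (T w)) = Λ φ) → MeasurePreserving T ν ν := by
  have hN' : Continuous fun y : S => N y := hN.comp continuous_subtype_val
  have hs := slab hc
  have : WeaklyLocallyCompactSpace S := ⟨fun y => ⟨_, hs (N y + 1),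
    mem_of_superset ((isOpen_lt hN' continuous_const).mem_nhds (lt_add_one (N y)))
      fun z (hz : N z < N y + 1) => hz.le⟩⟩
  have hex : ∀ φ : C_c(S, ℝ), Cl (ex S φ) := fun φ => hCl _ (ex_cl hN φ)
  let L0 : C_c(S, ℝ) →ₗ[ℝ] ℝ :=
    { toFun := fun φ => Λ (ex S φ)
      map_add' := fun φ ψ => by
        rw [← add _ _ (hex φ) (hex ψ)]
        exact congr _ _ fun w hw => by simp [ex_mem _ hw]
      map_smul' := fun c φ => by
        rw [RingHom.id_apply, smul_eq_mul, ← smul _ _ (hex φ)]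
        exact congr _ _ fun w hw => by simp [ex_mem _ hw] }
  have hnn : ∀ φ : C_c(S, ℝ), (∀ y, 0 ≤ φ y) → ∀ w, 0 ≤ ex S φ w := fun φ hφ w => by
    by_cases h : w ∈ S
    · rw [ex_mem _ h]; exact hφ _
    · rw [ex_not _ h]
  let L : C_c(S, ℝ) →ₚ[ℝ] ℝ := PositiveLinearMap.mk₀ L0 fun φ hφ =>
    pos _ (hex φ) (hnn φ (CompactlySupportedContinuousMap.le_def.1 hφ))
  have hL : ∀ φ : C_c(S, ℝ), ∫ y, φ y ∂(RealRMK.rieszMeasure L) = Λ (ex S φ) :=
    RealRMK.integral_rieszMeasure L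
  have hreg : (RealRMK.rieszMeasure L).Regular := inferInstance
  generalize RealRMK.rieszMeasure L = μ at hL hreg
  have hemb : MeasurableEmbedding (Subtype.val : S → Ω) :=
    MeasurableEmbedding.subtype_coe hS.measurableSet
  refine ⟨μ.map Subtype.val, hemb.ae_map_iff.2 (Eventually.of_forall fun y => y.2), ?_,
    fun R => ?_, fun T c hT hTS hinv => ?_⟩
  · intro h0
    have hμ : μ = 0 := (Measure.map_eq_zero_iff hemb.measurable.aemeasurable).1 h0
    obtain ⟨R, hR⟩ := ne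
    let φ : C_c(S, ℝ) :=
      { toFun := fun y => max 0 (min 1 (R + 1 - N y))
        continuous_toFun := by fun_prop
        hasCompactSupport' := HasCompactSupport.intro (hs (R + 1)) fun y hy => by
          have : R + 1 < N y := not_le.1 hy
          exact max_eq_left ((min_le_right _ _).trans (by linarith)) }
    have h1 := hR _ (hex φ) (hnn φ fun y => le_max_left _ _) fun w hw hw' => by
      rw [ex_mem _ hw]
      exact le_max_of_le_right (le_min le_rfl (by linarith))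
    rw [← hL, hμ, integral_zero_measure] at h1
    exact absurd h1 (by norm_num)
  · rw [hemb.map_apply]
    exact (hs R).measure_lt_top.ne
  · let T' : S → S := fun y => ⟨T y, (hTS y y.2).1⟩
    have hT' : Continuous T' := (hT.comp continuous_subtype_val).subtype_mk _
    have hprop : ∀ Q : Set S, IsCompact Q → IsCompact (T' ⁻¹' Q) := by
      intro Q hQ
      obtain ⟨R, hR⟩ := hQ.bddAbove_image hN'.continuousOn
      refine (hs (R + c)).of_isClosed_subset (hQ.isClosed.preimage hT') fun y hy => ?_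
      have h1 : N (T y) ≤ R := hR ⟨_, hy, rfl⟩
      have h2 := (hTS y y.2).2
      change N y ≤ R + c
      linarith
    have : IsFiniteMeasureOnCompacts (μ.map T') := ⟨fun Q hQ => by
      rw [Measure.map_apply hT'.measurable hQ.measurableSet]
      exact (hprop Q hQ).measure_lt_top⟩
    have hmap : μ.map T' = μ := by
      refine Measure.ext_of_integral_eq_on_compactlySupported fun φ => ?_
      rw [integral_map hT'.measurable.aemeasurable (map_continuous φ).aestronglyMeasurable]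
      let ψ : C_c(S, ℝ) :=
        { toFun := fun y => φ (T' y)
          continuous_toFun := φ.continuous.comp hT'
          hasCompactSupport' := HasCompactSupport.intro (hprop _ φ.hasCompactSupport.isCompact)
            fun y hy => image_eq_zero_of_notMem_tsupport hy }
      refine (hL ψ).trans ?_
      rw [hL, ← hinv _ (hex φ)]
      exact congr _ _ fun w hw => by rw [ex_mem _ hw, ex_mem _ (hTS w hw).1]; rfl
    refine ⟨hT.measurable, ?_⟩
    rw [Measure.map_map hT.measurable hemb.measurable]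
    conv_rhs => rw [← hmap, Measure.map_map hemb.measurable hT'.measurable]
    rfl

end MEASA

theorem ofMEAS : OfMEAS := by
  intro hX K _ m n C ε O₁ O₂ Λ h1 h2 hΛ
  obtain ⟨hc, hk, hmv⟩ := hX K m n C ε O₁ O₂ h1 h2
  obtain ⟨ν, a1, a2, a3, a4⟩ := MEASA.abs_meas (Ω := Om K m n) (N := fun w => ‖w.1‖)
    (by fun_prop) hc hk Cl (fun _ h => h) Λ hΛ.add hΛ.smul hΛ.pos hΛ.congr hΛ.ne
  exact ⟨ν, a1, a2, a3, fun a l hl => a4 _ ‖em a‖ (hmv a l hl).1 (hmv a l hl).2
    fun φ hφ => hΛ.inv φ a l hφ hl⟩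

end Pool.Agent.MP_66cee2_co.XT
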