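import Pool.Agent.MP_66cee2_co.XT.Spec

/-! Row CORR: correlation functions of an invariant measure on configurations. -/

namespace Pool.Agent.MP_66cee2_co.XT

open MeasureTheory Filter Topology

namespace CORRA

theorem pd_of_real {A : Type} [AddCommGroup A] (φ : A → ℝ) (hs : ∀ a b, φ (b - a) = φ (a - b))
    (hp : ∀ (S : Finset A) (r : A → ℝ), 0 ≤ ∑ a ∈ S, ∑ b ∈ S, r a * r b * φ (b - a)) :
    X.PD fun z => (φ z : ℂ) := by
  intro S c
  rw [Complex.nonneg_iff]
  constructor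
  · have := add_nonneg (hp S fun a => (c a).re) (hp S fun a => (c a).im)
    simp only [← Finset.sum_add_distrib] at this
    simp only [Complex.re_sum]
    refine this.trans_eq (Finset.sum_congr rfl fun a _ => Finset.sum_congr rfl fun b _ => ?_)
    simp
    ring
  · have e : ∑ a ∈ S, ∑ b ∈ S, (c a).im * (c b).re * φ (b - a) =
        ∑ a ∈ S, ∑ b ∈ S, (c a).re * (c b).im * φ (b - a) := by
      rw [Finset.sum_comm]
      refine Finset.sum_congr rfl fun a _ => Finset.sum_congr rfl fun b _ => ?_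
      rw [hs]
      ring
    rw [← sub_eq_zero] at e
    simp only [← Finset.sum_sub_distrib] at e
    simp only [Complex.im_sum]
    rw [← neg_eq_zero] at e
    simp only [← Finset.sum_neg_distrib] at e
    refine e.symm.trans (Finset.sum_congr rfl fun a _ => Finset.sum_congr rfl fun b _ => ?_)
    simp
    ring

variable {K : Subfield ℂ} {m n : ℕ} {ν : Measure (Om K m n)}

/-- The correlation function. -/
noncomputable def cor (ν : Measure (Om K m n)) (ξ ξ' : Ec m × Eu n → ℝ) (z : Fin m → K) : ℝ :=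
  ∫ w, ev ξ 0 w * ev ξ' z w ∂ν

variable (hi : ∀ a l, Un l → MeasurePreserving (mv a l : Om K m n → Om K m n) ν ν)
  {ξ ξ' : Ec m × Eu n → ℝ}
include hi

theorem mem (h : MemLp (ev ξ (0 : Fin m → K)) 2 ν) (z : Fin m → K) : MemLp (ev ξ z) 2 ν := by
  have := h.comp_measurePreserving (hi z 1 un_one)
  convert this using 1
  funext w
  simp [ev_mv]

variable (h : MemLp (ev ξ (0 : Fin m → K)) 2 ν) (h' : MemLp (ev ξ' (0 : Fin m → K)) 2 ν)
include h h'

theorem intg (y y' : Fin m → K) : Integrable (fun w => ev ξ y w * ev ξ' y' w) ν :=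
  (mem hi h y).integrable_mul (mem hi h' y')

theorem shift (a l y y' : Fin m → K) (hl : Un l) :
    ∫ w, ev ξ (a + l * y) w * ev ξ' (a + l * y') w ∂ν = ∫ w, ev ξ y w * ev ξ' y' w ∂ν := by
  have H := hi a l hl
  have := integral_map (μ := ν) H.aemeasurable (f := fun w => ev ξ y w * ev ξ' y' w)
    (by rw [H.map_eq]; exact (intg hi h h' y y').aestronglyMeasurable)
  rw [H.map_eq] at this
  simpa only [ev_mv] using this.symm

theorem cor_eq (y y' : Fin m → K) : ∫ w, ev ξ y w * ev ξ' y' w ∂ν = cor ν ξ ξ' (y' - y) := by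
  have := shift hi h h' y 1 0 (y' - y) un_one
  simpa [cor] using this

theorem cor_rot (l z : Fin m → K) (hl : Un l) : cor ν ξ ξ' (l * z) = cor ν ξ ξ' z := by
  have := shift hi h h' 0 l 0 z hl
  simpa [cor] using this

theorem cor_neg (z : Fin m → K) : cor ν ξ ξ' (-z) = cor ν ξ ξ' z := by
  simpa using cor_rot hi h h' (-1) z un_neg_one

theorem cor_symm (z : Fin m → K) : cor ν ξ' ξ z = cor ν ξ ξ' z := by
  rw [← cor_neg hi h h', ← zero_sub, ← cor_eq hi h h', cor]
  simp only [mul_comm]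

theorem cor_bd : Bd (cor ν ξ ξ') := by
  refine ⟨cor ν ξ ξ 0 + cor ν ξ' ξ' 0, fun z => ?_⟩
  have e1 := cor_eq hi h' h' z z
  rw [sub_self] at e1
  rw [← e1, cor, cor, ← integral_add (intg hi h h 0 0) (intg hi h' h' z z), ← Real.norm_eq_abs]
  refine norm_integral_le_of_norm_le ((intg hi h h 0 0).add (intg hi h' h' z z))
    (Eventually.of_forall fun w => ?_)
  rw [Real.norm_eq_abs, abs_le]
  constructor <;> nlinarith [sq_nonneg (ev ξ 0 w + ev ξ' z w), sq_nonneg (ev ξ 0 w - ev ξ' z w),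
    sq_nonneg (ev ξ 0 w), sq_nonneg (ev ξ' z w)]

theorem cor_add (z : Fin m → K) : cor ν (ξ + ξ') (ξ + ξ') z =
    cor ν ξ ξ z + cor ν ξ' ξ' z + 2 * cor ν ξ ξ' z := by
  have e : cor ν (ξ + ξ') (ξ + ξ') z = ∫ w, (ev ξ 0 w * ev ξ z w + ev ξ' 0 w * ev ξ' z w) +
      (ev ξ 0 w * ev ξ' z w + ev ξ' 0 w * ev ξ z w) ∂ν := by
    refine integral_congr_ae (Eventually.of_forall fun w => ?_)
    simp only [ev, Pi.add_apply]
    ring
  have i1 : Integrable (fun w => ev ξ 0 w * ev ξ z w + ev ξ' 0 w * ev ξ' z w) ν :=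
    (intg hi h h 0 z).add (intg hi h' h' 0 z)
  have i2 : Integrable (fun w => ev ξ 0 w * ev ξ' z w + ev ξ' 0 w * ev ξ z w) ν :=
    (intg hi h h' 0 z).add (intg hi h' h 0 z)
  rw [e, integral_add i1 i2, integral_add (intg hi h h 0 z) (intg hi h' h' 0 z),
    integral_add (intg hi h h' 0 z) (intg hi h' h 0 z), two_mul]
  congr 2
  exact cor_symm hi h h' z

omit h' in
theorem cor_pd : X.PD fun z => (cor ν ξ ξ z : ℂ) := by
  refine pd_of_real _ (fun a b => by rw [← cor_neg hi h h, neg_sub]) fun S r => ?_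
  have e : ∑ a ∈ S, ∑ b ∈ S, r a * r b * cor ν ξ ξ (b - a) =
      ∫ w, ∑ a ∈ S, ∑ b ∈ S, r a * r b * (ev ξ a w * ev ξ b w) ∂ν := by
    rw [integral_finsetSum _ fun a _ =>
      integrable_finsetSum _ fun b _ => (intg hi h h a b).const_mul _]
    refine Finset.sum_congr rfl fun a _ => ?_
    rw [integral_finsetSum _ fun b _ => (intg hi h h a b).const_mul _]
    refine Finset.sum_congr rfl fun b _ => ?_
    rw [integral_const_mul, cor_eq hi h h]
  rw [e]
  refine integral_nonneg fun w => ?_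
  refine (mul_self_nonneg (∑ a ∈ S, r a * ev ξ a w)).trans_eq ?_
  rw [Finset.sum_mul_sum]
  refine Finset.sum_congr rfl fun a _ => Finset.sum_congr rfl fun b _ => ?_
  ring

omit h' in
theorem cor_cont (hR : RPD K m) :
    ∃ ψ : Ec m → ℝ, Continuous ψ ∧ ∀ z, Gen z → cor ν ξ ξ z = ψ (em z) := by
  obtain ⟨ψ, hψ, e⟩ := hR _ (cor_pd hi h) fun l z hl => by rw [cor_rot hi h h l z hl]
  refine ⟨fun v => (ψ fun j => v j).re, Complex.continuous_re.comp (hψ.comp (by fun_prop)),
    fun z hz => ?_⟩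
  have := congrArg Complex.re (e z hz)
  simpa using this

end CORRA

open CORRA in
theorem rowCORR : RowCORR := by
  intro K m n C ε O₁ O₂ ν hS hR ξ ξ' h h'
  have hi := hS.inv
  obtain ⟨ψ1, c1, e1⟩ := cor_cont hi h hR
  obtain ⟨ψ2, c2, e2⟩ := cor_cont hi h' hR
  obtain ⟨ψ3, c3, e3⟩ := cor_cont hi (ξ := ξ + ξ') (h.add h') hR
  refine ⟨mem hi h, cor ν ξ ξ', fun v => (ψ3 v - ψ1 v - ψ2 v) / 2, by fun_prop, cor_bd hi h h',
    fun z hz => ?_, cor_eq hi h h'⟩
  have := cor_add hi h h' z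
  rw [e1 z hz, e2 z hz, e3 z hz] at this
  linarith

end Pool.Agent.MP_66cee2_co.XT
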