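import Pool.Agent.MP_66cee2_co.XT.Spec

/-! Row PW: pointwise facts about limits of the averaged fields. -/

namespace Pool.Agent.MP_66cee2_co.XT

open MeasureTheory Filter Topology Matrix

noncomputable section

namespace PWA

variable {ι : Type} [Fintype ι]

/-- A weighted sum of rank one matrices. -/
def Q (s : Finset ℕ) (c : ℕ → ℝ) (G : ℕ → ι → ℝ) : Matrix ι ι ℝ :=
  ∑ i ∈ s, c i • vecMulVec (G i) (G i)

theorem Q_psd (s : Finset ℕ) (c : ℕ → ℝ) (G : ℕ → ι → ℝ) (hc : ∀ i, 0 ≤ c i) :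
    (Q s c G).PosSemidef := by
  refine posSemidef_sum s fun i _ => PosSemidef.smul ?_ (hc i)
  simpa using posSemidef_vecMulVec_self_star (G i)

theorem Q_mulVec (s : Finset ℕ) (c : ℕ → ℝ) (G : ℕ → ι → ℝ) (g : ι → ℝ)
    (h : ∀ i, G i ⬝ᵥ g = 1) : Q s c G *ᵥ g = ∑ i ∈ s, c i • G i := by
  rw [Q, sum_mulVec]
  refine Finset.sum_congr rfl fun i _ => ?_
  rw [smul_mulVec, vecMulVec_mulVec, h i]
  simp

theorem Q_dot (s : Finset ℕ) (c : ℕ → ℝ) (G : ℕ → ι → ℝ) (g : ι → ℝ)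
    (h : ∀ i, G i ⬝ᵥ g = 1) : g ⬝ᵥ Q s c G *ᵥ g = ∑ i ∈ s, c i := by
  rw [Q_mulVec s c G g h, dotProduct_sum]
  refine Finset.sum_congr rfl fun i _ => ?_
  rw [dotProduct_smul, dotProduct_comm, h i, smul_eq_mul, mul_one]

theorem Q_trace (s : Finset ℕ) (c : ℕ → ℝ) (G : ℕ → ι → ℝ) (J : Matrix ι ι ℝ)
    (h : ∀ i, G i ⬝ᵥ J *ᵥ G i = 1) : (Q s c G * J).trace = ∑ i ∈ s, c i := by
  rw [Q, Finset.sum_mul, trace_sum]
  refine Finset.sum_congr rfl fun i _ => ?_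
  rw [smul_mul, trace_smul, vecMulVec_mul, trace_vecMulVec, dotProduct_comm,
    ← dotProduct_mulVec, h i, smul_eq_mul, mul_one]

theorem Q_pair (s s' : Finset ℕ) (c c' : ℕ → ℝ) (G G' : ℕ → ι → ℝ) (g : ι → ℝ)
    (J : Matrix ι ι ℝ) (t : ℝ) (hc : ∀ i, 0 ≤ c i) (hc' : ∀ i, 0 ≤ c' i)
    (h : ∀ i, G i ⬝ᵥ g = 1) (h' : ∀ i, G' i ⬝ᵥ g = 1)
    (ht : ∀ i ∈ s, ∀ i' ∈ s', t ≤ G i ⬝ᵥ J *ᵥ G' i') :
    (g ⬝ᵥ Q s c G *ᵥ g) * (g ⬝ᵥ Q s' c' G' *ᵥ g) * t ≤
      (Q s c G *ᵥ g) ⬝ᵥ J *ᵥ (Q s' c' G' *ᵥ g) := by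
  rw [Q_dot s c G g h, Q_dot s' c' G' g h', Q_mulVec s c G g h, Q_mulVec s' c' G' g h',
    sum_dotProduct, Finset.sum_mul, Finset.sum_mul]
  refine Finset.sum_le_sum fun i hi => ?_
  rw [mulVec_sum, dotProduct_sum, Finset.mul_sum, Finset.sum_mul]
  refine Finset.sum_le_sum fun i' hi' => ?_
  rw [mulVec_smul, smul_dotProduct, dotProduct_smul, smul_eq_mul, smul_eq_mul, mul_assoc]
  exact mul_le_mul_of_nonneg_left (mul_le_mul_of_nonneg_left (ht i hi i' hi') (hc' i')) (hc i)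

theorem psd_lim {A : ℕ → Matrix ι ι ℝ} {P : Matrix ι ι ℝ} (hA : ∀ k, (A k).PosSemidef)
    (h : Tendsto A atTop (𝓝 P)) : P.PosSemidef := by
  refine PosSemidef.of_dotProduct_mulVec_nonneg ?_ fun x => ?_
  · have h1 : Tendsto (fun k => (A k)ᴴ) atTop (𝓝 Pᴴ) :=
      (continuous_id.matrix_conjTranspose.tendsto P).comp h
    have h2 : (fun k => (A k)ᴴ) = A := funext fun k => (hA k).1
    rw [h2] at h1
    exact tendsto_nhds_unique h1 h
  · have hc : Continuous fun M : Matrix ι ι ℝ => star x ⬝ᵥ M *ᵥ x :=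
      continuous_const.dotProduct (continuous_id.matrix_mulVec continuous_const)
    exact ge_of_tendsto' ((hc.tendsto P).comp h) fun k => (hA k).dotProduct_mulVec_nonneg x

theorem pair_lim (J : Matrix ι ι ℝ) (g : ι → ℝ) {A A' : ℕ → Matrix ι ι ℝ} {P P' : Matrix ι ι ℝ}
    (h : Tendsto A atTop (𝓝 P)) (h' : Tendsto A' atTop (𝓝 P')) :
    Tendsto (fun k => (A k *ᵥ g) ⬝ᵥ J *ᵥ (A' k *ᵥ g)) atTop (𝓝 ((P *ᵥ g) ⬝ᵥ J *ᵥ (P' *ᵥ g))) := by
  have c2 : Continuous fun p : Matrix ι ι ℝ × Matrix ι ι ℝ => (p.1 *ᵥ g) ⬝ᵥ J *ᵥ (p.2 *ᵥ g) :=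
    (continuous_fst.matrix_mulVec continuous_const).dotProduct
      (continuous_const.matrix_mulVec (continuous_snd.matrix_mulVec continuous_const))
  have h3 := (c2.tendsto (P, P')).comp (h.prodMk_nhds h')
  simpa only [Function.comp_def] using h3

variable {K : Subfield ℂ} {m n : ℕ}

omit [Fintype ι] in
theorem PJ_eq (χ : Ec m → ℝ) (F : Eu n → ι → ℝ) (pt : ℕ → ℕ → Ec m → Fin m → K) (j : ℕ)
    (v : Ec m) (w : Om K m n) :
    PJ χ F pt j v w = Q (Finset.range (j + 1))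
      (fun i => χ (ps w (em (pt j i v))) / ((j : ℝ) + 1)) fun i => F (w.2.2 (pt j i v)) := by
  ext a b
  simp only [PJ, Q, av, ev, xi, Matrix.of_apply, Matrix.sum_apply, Matrix.smul_apply,
    vecMulVec_apply, smul_eq_mul, Finset.sum_div]
  refine Finset.sum_congr rfl fun i _ => ?_
  ring

theorem near_ev {pt : ℕ → ℕ → Ec m → Fin m → K} (hp : Pts pt) {σ : ℕ → ℕ}
    (hσ : Tendsto σ atTop atTop) {δ : ℝ} (hδ : 0 < δ) :
    ∀ᶠ k in atTop, ∀ i ∈ Finset.range (σ k + 1), ∀ v, ‖em (pt (σ k) i v) - v‖ ≤ δ := by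
  obtain ⟨N, hN⟩ := hp.near δ hδ
  filter_upwards [hσ.eventually_ge_atTop N] with k hk i hi v
  exact hN _ hk i (Nat.lt_succ_iff.mp (Finset.mem_range.mp hi)) v

theorem mem_ev {pt : ℕ → ℕ → Ec m → Fin m → K} (hp : Pts pt) {σ : ℕ → ℕ}
    (hσ : Tendsto σ atTop atTop) {w : Om K m n} (hw : ∀ j, ‖w.2.1 j‖ = 1) {O : Set (Ec m)}
    (hO : IsOpen O) {v : Ec m} (hv : ps w v ∈ O) :
    ∀ᶠ k in atTop, ∀ i ∈ Finset.range (σ k + 1), ps w (em (pt (σ k) i v)) ∈ O := by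
  obtain ⟨r, hr, hsub⟩ := Metric.isOpen_iff.mp hO _ hv
  filter_upwards [near_ev hp hσ (half_pos hr)] with k hk i hi
  refine hsub ?_
  rw [Metric.mem_ball, dist_eq_norm, ps_sub, norm_rot hw]
  exact (hk i hi v).trans_lt (half_lt_self hr)

end PWA

open PWA in
theorem rowPW : RowPW := by
  intro K m n C ε O₁ O₂ ν ι _ J g F χ pt σ hL hW hp hσ hO₁ hO₂
  have hχ : ∀ a, 0 ≤ χ a := fun a => by
    obtain ⟨κ, hκ, h⟩ := hW.low ‖a‖
    exact hκ.le.trans (h a le_rfl)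
  have hc : ∀ (j : ℕ) (a : Ec m), 0 ≤ χ a / ((j : ℝ) + 1) := fun j a =>
    div_nonneg (hχ a) (by positivity)
  have hpsd : ∀ (j : ℕ) (v : Ec m) (w : Om K m n), (PJ χ F pt j v w).PosSemidef := by
    intro j v w
    rw [PJ_eq]
    exact Q_psd _ _ _ fun i => hc j _
  have cq : Continuous fun M : Matrix ι ι ℝ => M *ᵥ g :=
    continuous_id.matrix_mulVec continuous_const
  have cd : Continuous fun M : Matrix ι ι ℝ => g ⬝ᵥ M *ᵥ g := continuous_const.dotProduct cq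
  have ct : Continuous fun M : Matrix ι ι ℝ => (M * J).trace :=
    (continuous_id.matrix_mul continuous_const).matrix_trace
  refine ⟨hpsd, fun w hw v P hP => ?_⟩
  have hP1 : Tendsto (fun k => PJ χ F pt (σ k) v w) atTop (𝓝 P) :=
    tendsto_pi_nhds.2 fun a => tendsto_pi_nhds.2 fun b => hP a b
  have hd := (cd.tendsto P).comp hP1
  refine ⟨⟨psd_lim (fun k => hpsd _ _ _) hP1, ?_, ?_⟩, fun v' P' hP' hv hv' => ?_⟩
  · refine tendsto_nhds_unique ((ct.tendsto P).comp hP1) (hd.congr fun k => ?_)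
    simp only [Function.comp_apply]
    rw [PJ_eq, Q_dot _ _ _ _ fun i => hL.one _, Q_trace _ _ _ _ fun i => ?_]
    rw [hL.ip]
    simp
  · obtain ⟨κ, hκ, h⟩ := hW.low (‖ps w v‖ + 1)
    refine hκ.trans_le (ge_of_tendsto hd ?_)
    filter_upwards [near_ev hp hσ one_pos] with k hk
    simp only [Function.comp_apply]
    rw [PJ_eq, Q_dot _ _ _ _ fun i => hL.one _, ← Finset.sum_div, le_div_iff₀ (by positivity)]
    have h1 : ∀ i ∈ Finset.range (σ k + 1), κ ≤ χ (ps w (em (pt (σ k) i v))) := by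
      intro i hi
      refine h _ ?_
      have h2 : ‖ps w (em (pt (σ k) i v)) - ps w v‖ ≤ 1 := by
        rw [ps_sub, norm_rot hw.1]
        exact hk i hi v
      have h3 := norm_sub_norm_le (ps w (em (pt (σ k) i v))) (ps w v)
      linarith
    have h4 := Finset.card_nsmul_le_sum _ _ _ h1
    rw [Finset.card_range, nsmul_eq_mul] at h4
    push_cast at h4
    linarith
  · have hP2 : Tendsto (fun k => PJ χ F pt (σ k) v' w) atTop (𝓝 P') :=
      tendsto_pi_nhds.2 fun a => tendsto_pi_nhds.2 fun b => hP' a b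
    have hd' := (cd.tendsto P').comp hP2
    have hB := pair_lim J g hP1 hP2
    have key : ∀ η : ℝ, 0 < η → ∀ᶠ k in atTop, ∀ i ∈ Finset.range (σ k + 1),
        ∀ i' ∈ Finset.range (σ k + 1),
          ‖w.2.2 (pt (σ k) i v) - w.2.2 (pt (σ k) i' v')‖ ≤ ‖v - v'‖ + 2 * η - ε := by
      intro η hη
      filter_upwards [near_ev hp hσ hη, mem_ev hp hσ hw.1 hO₁ hv, mem_ev hp hσ hw.1 hO₂ hv']
        with k hk h1 h2 i hi i' hi'
      refine (hw.2.2.2 _ _ (h1 i hi) (h2 i' hi')).trans ?_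
      have e : em (pt (σ k) i v) - em (pt (σ k) i' v') =
          (v - v') + ((em (pt (σ k) i v) - v) - (em (pt (σ k) i' v') - v')) := by abel
      have h3 := norm_add_le (v - v') ((em (pt (σ k) i v) - v) - (em (pt (σ k) i' v') - v'))
      have h4 := norm_sub_le (em (pt (σ k) i v) - v) (em (pt (σ k) i' v') - v')
      have h5 := hk i hi v
      have h6 := hk i' hi' v'
      rw [e]
      linarith
    have main : ∀ η : ℝ, 0 < η → 0 ≤ ‖v - v'‖ + 2 * η - ε ∧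
        (g ⬝ᵥ P *ᵥ g) * (g ⬝ᵥ P' *ᵥ g) * (1 - (‖v - v'‖ + 2 * η - ε) ^ 2) ≤
          (P *ᵥ g) ⬝ᵥ J *ᵥ (P' *ᵥ g) := by
      intro η hη
      constructor
      · obtain ⟨k, hk⟩ := (key η hη).exists
        have h0 : 0 ∈ Finset.range (σ k + 1) := Finset.mem_range.mpr (Nat.succ_pos _)
        exact (norm_nonneg _).trans (hk 0 h0 0 h0)
      · refine le_of_tendsto_of_tendsto ((hd.mul hd').mul_const _) hB ?_
        filter_upwards [key η hη] with k hk
        simp only [Function.comp_apply]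
        rw [PJ_eq, PJ_eq]
        refine Q_pair _ _ _ _ _ _ g J _ (fun i => hc _ _) (fun i => hc _ _)
          (fun i => hL.one _) (fun i => hL.one _) fun i hi i' hi' => ?_
        rw [hL.ip]
        exact sub_le_sub_left (pow_le_pow_left₀ (norm_nonneg _) (hk i hi i' hi') 2) 1
    constructor
    · refine le_of_forall_pos_le_add fun η hη => ?_
      have := (main (η / 2) (half_pos hη)).1
      linarith
    · have c3 : Continuous fun η : ℝ =>
          (g ⬝ᵥ P *ᵥ g) * (g ⬝ᵥ P' *ᵥ g) * (1 - (‖v - v'‖ + 2 * η - ε) ^ 2) := by fun_prop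
      have h1 := (c3.tendsto 0).mono_left (nhdsWithin_le_nhds (s := Set.Ioi 0))
      rw [mul_zero, add_zero] at h1
      refine le_of_tendsto h1 ?_
      filter_upwards [self_mem_nhdsWithin] with η hη
      exact (main η hη).2

end

end Pool.Agent.MP_66cee2_co.XT
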