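import Pool.Agent.MP_66cee2_co.XT.Spec

/-! Assembly of the transfer in even dimension. -/

namespace Pool.Agent.MP_66cee2_co.XT

open MeasureTheory Filter Topology Matrix

namespace TA

variable {K : Subfield ℂ} {m n : ℕ} {ι : Type}

lemma exists_iso (m : ℕ) : Nonempty (Eu (2 * m) ≃ₗᵢ[ℝ] Ec m) := by
  have h : Module.finrank ℝ (Ec m) = 2 * m := by
    rw [← Module.finrank_mul_finrank ℝ ℂ (Ec m), Complex.finrank_real_complex,
      finrank_euclideanSpace_fin]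
  exact ⟨((stdOrthonormalBasis ℝ (Ec m)).reindex (finCongr h)).repr.symm⟩

lemma meas_ev [Countable K] {ξ : Ec m × Eu n → ℝ} (hξ : Measurable ξ) {q : Ec m → Fin m → K}
    (hq : ∀ z, MeasurableSet {v | q v = z}) :
    Measurable fun p : Ec m × Om K m n => ev ξ (q p.1) p.2 := by
  intro S hS
  have e : (fun p : Ec m × Om K m n => ev ξ (q p.1) p.2) ⁻¹' S =
      ⋃ z, {v | q v = z} ×ˢ (ev ξ z ⁻¹' S) := by
    ext p
    simp
  rw [e]
  exact MeasurableSet.iUnion fun z => (hq z).prod (measurable_ev hξ z hS)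

lemma meas_PJ [Countable K] {χ : Ec m → ℝ} {F : Eu n → ι → ℝ} {pt : ℕ → ℕ → Ec m → Fin m → K}
    (hχ : Measurable χ) (hF : Continuous F) (hpt : Pts pt) (j : ℕ) (a b : ι) :
    Measurable fun p : Ec m × Om K m n => PJ χ F pt j p.1 p.2 a b := by
  simp only [PJ, av, of_apply]
  exact (Finset.measurable_sum _ fun i _ =>
    meas_ev (measurable_xi hχ hF a b) (hpt.meas j i)).div_const _

lemma fatou {Ω : Type} [MeasurableSpace Ω] {ν : Measure Ω} {T : ℕ → Ω → ℝ} {L : Ω → ℝ}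
    (hi : ∀ k, Integrable (T k) ν) (h0 : ∀ k w, 0 ≤ T k w)
    (hl : ∀ᵐ w ∂ν, Tendsto (fun k => T k w) atTop (𝓝 (L w)))
    (hI : Tendsto (fun k => ∫ w, T k w ∂ν) atTop (𝓝 0)) : ∀ᵐ w ∂ν, L w = 0 := by
  have hm : ∀ k, AEMeasurable (T k) ν := fun k => (hi k).1.aemeasurable
  have hL : AEMeasurable L ν := aemeasurable_of_tendsto_metrizable_ae' hm hl
  have h1 := lintegral_liminf_le' (μ := ν) (u := atTop) fun k => (hm k).ennreal_ofReal
  have h2 : Tendsto (fun k => ∫⁻ w, ENNReal.ofReal (T k w) ∂ν) atTop (𝓝 0) := by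
    have := ENNReal.tendsto_ofReal hI
    rw [ENNReal.ofReal_zero] at this
    exact this.congr fun k =>
      ofReal_integral_eq_lintegral_ofReal (hi k) (Eventually.of_forall (h0 k))
  have h3 : ∫⁻ w, ENNReal.ofReal (L w) ∂ν = 0 := by
    rw [h2.liminf_eq, nonpos_iff_eq_zero] at h1
    rw [← h1]
    refine lintegral_congr_ae ?_
    filter_upwards [hl] with w hw
    exact (ENNReal.tendsto_ofReal hw).liminf_eq.symm
  rw [lintegral_eq_zero_iff' hL.ennreal_ofReal] at h3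
  filter_upwards [h3, hl] with w hw hw'
  exact le_antisymm (ENNReal.ofReal_eq_zero.1 hw) (ge_of_tendsto' hw' fun k => h0 k w)

lemma int_trace [Fintype ι] {Ω : Type} [MeasurableSpace Ω] {ν : Measure Ω}
    {A B : Ω → Matrix ι ι ℝ} (J : Matrix ι ι ℝ) (hA : ∀ a b, MemLp (fun w => A w a b) 2 ν)
    (hB : ∀ a b, MemLp (fun w => B w a b) 2 ν) :
    Integrable (fun w => (A w * J * B w * J).trace) ν := by
  simp only [trace, diag, mul_apply]
  refine integrable_finsetSum _ fun a _ => integrable_finsetSum _ fun d _ => ?_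
  refine Integrable.mul_const (integrable_finsetSum _ fun c _ => ?_) _
  exact MemLp.integrable_mul (p := 2) (q := 2)
    (memLp_finsetSum _ fun b _ => (hA a b).mul_const _) (hB c d)

lemma tendsto_trace [Fintype ι] {A B : ℕ → Matrix ι ι ℝ} {P Q : Matrix ι ι ℝ} (J : Matrix ι ι ℝ)
    (hA : ∀ a b, Tendsto (fun k => A k a b) atTop (𝓝 (P a b)))
    (hB : ∀ a b, Tendsto (fun k => B k a b) atTop (𝓝 (Q a b))) :
    Tendsto (fun k => (A k * J * B k * J).trace) atTop (𝓝 (P * J * Q * J).trace) := by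
  simp only [trace, diag, mul_apply]
  refine tendsto_finsetSum _ fun a _ => tendsto_finsetSum _ fun d _ => ?_
  refine Tendsto.mul_const _ (tendsto_finsetSum _ fun c _ => ?_)
  exact (tendsto_finsetSum _ fun b _ => (hA a b).mul_const _).mul (hB c d)

lemma sig_ae {d : ℕ} (hd : 1 ≤ d) : ∀ᵐ z ∂X.sig d, ‖z‖ = 1 := by
  have : Nonempty (Fin d) := ⟨⟨0, hd⟩⟩
  rw [X.sig, ae_map_iff (by fun_prop) (measurableSet_eq_fun (by fun_prop) (by fun_prop))]
  refine ae_restrict_of_ae ?_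
  filter_upwards [Measure.ae_ne volume (0 : Eu d)] with z hz
  rw [norm_smul, norm_inv, norm_norm, inv_mul_cancel₀ (norm_ne_zero_iff.2 hz)]

instance (d : ℕ) : SFinite (X.sig d) := by
  unfold X.sig
  infer_instance

lemma sfin {C ε : ℝ} {O₁ O₂ : Set (Ec m)} {ν : Measure (Om K m n)} (h : Sy C ε O₁ O₂ ν) :
    SigmaFinite ν := by
  refine ⟨⟨⟨fun k : ℕ => {w | ‖w.1‖ ≤ k}, fun _ => trivial, fun k => (h.fin k).lt_top, ?_⟩⟩⟩
  exact Set.eq_univ_of_forall fun w => Set.mem_iUnion.2 (exists_nat_ge ‖w.1‖)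

lemma exists_pt {d : ℕ} (e : Eu d ≃ₗᵢ[ℝ] Ec m) {w : Om K m n} (hw : ∀ j, ‖w.2.1 j‖ = 1)
    {O : Set (Ec m)} (hO : IsOpen O) (hne : O.Nonempty) {p : Eu d → Prop} (hp : ∀ᵐ x, p x) :
    ∃ x, ps w (e x) ∈ O ∧ p x := by
  obtain ⟨o, ho⟩ := hne
  have h1 : IsOpen {x | ps w (e x) ∈ O} :=
    hO.preimage (continuous_ps.comp (continuous_const.prodMk e.continuous))
  refine (Measure.dense_of_ae hp).inter_open_nonempty _ h1
    ⟨e.symm (rot (fun j => (w.2.1 j)⁻¹) (o - w.1)), ?_⟩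
  have h2 : ∀ j, w.2.1 j ≠ 0 := fun j h => by simpa [h] using hw j
  have h3 : ps w (rot (fun j => (w.2.1 j)⁻¹) (o - w.1)) = o := by
    ext j
    simp [ps, h2]
  show ps w (e (e.symm _)) ∈ O
  rwa [e.apply_symm_apply, h3]

lemma exists_lim {V Ω : Type} [MeasurableSpace V] [MeasurableSpace Ω]
    {G : ℕ → V → Ω → Matrix ι ι ℝ} (hG : ∀ k a b, Measurable fun p : V × Ω => G k p.1 p.2 a b) :
    ∃ P : V → Ω → Matrix ι ι ℝ, (∀ a b, Measurable fun p : V × Ω => P p.1 p.2 a b) ∧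
      ∀ v w a b, (∃ L, Tendsto (fun k => G k v w a b) atTop (𝓝 L)) →
        Tendsto (fun k => G k v w a b) atTop (𝓝 (P v w a b)) :=
  ⟨fun v w => Matrix.of fun a b => limUnder atTop fun k => G k v w a b, fun a b =>
    (StronglyMeasurable.limUnder (l := atTop) fun k => (hG k a b).stronglyMeasurable).measurable,
    fun _ _ _ _ h => tendsto_nhds_limUnder h⟩

lemma swap1 [Fintype ι] {V Ω : Type} [MeasurableSpace V] [MeasurableSpace Ω] {d : ℕ}
    {ν : Measure Ω} [SFinite ν] {G : ℕ → V → Ω → Matrix ι ι ℝ} {P : V → Ω → Matrix ι ι ℝ}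
    {e : Eu d → V} (me : Measurable e)
    (hG : ∀ k a b, Measurable fun p : V × Ω => G k p.1 p.2 a b)
    (hP : ∀ a b, Measurable fun p : V × Ω => P p.1 p.2 a b)
    (h : ∀ v, ∀ᵐ w ∂ν, ∀ a b, Tendsto (fun k => G k v w a b) atTop (𝓝 (P v w a b))) :
    ∀ᵐ w ∂ν, ∀ᵐ x : Eu d, ∀ a b,
      Tendsto (fun k => G k (e x) w a b) atTop (𝓝 (P (e x) w a b)) := by
  refine (Measure.ae_ae_comm ?_).1 (Eventually.of_forall fun x => h (e x))
  simp only [Set.ofPred_forall]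
  refine MeasurableSet.iInter fun a => MeasurableSet.iInter fun b => ?_
  have mp : Measurable fun p : Eu d × Ω => (e p.1, p.2) := by fun_prop
  exact measurableSet_tendsto_fun (fun k => (hG k a b).comp mp) ((hP a b).comp mp)

lemma swap2 [Fintype ι] {V Ω : Type} [MeasurableSpace V] [MeasurableSpace Ω] {d : ℕ} (hd : 1 ≤ d)
    {ν : Measure Ω} [SFinite ν] {P : V → Ω → Matrix ι ι ℝ} {J : Matrix ι ι ℝ}
    {e : Eu d → V} (me : Measurable e)
    (hP : ∀ a b, Measurable fun p : V × Ω => P p.1 p.2 a b)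
    (h : ∀ x z, ‖z‖ = 1 → ∀ᵐ w ∂ν, P (e x) w * J * (P (e (x + z)) w)ᵀ = 0) :
    ∀ᵐ w ∂ν, ∀ᵐ x : Eu d, ∀ᵐ z ∂X.sig d, P (e x) w * J * (P (e (x + z)) w)ᵀ = 0 := by
  have h1 : ∀ᵐ p ∂(volume : Measure (Eu d)).prod (X.sig d), ∀ᵐ w ∂ν,
      P (e p.1) w * J * (P (e (p.1 + p.2)) w)ᵀ = 0 := by
    filter_upwards [Measure.quasiMeasurePreserving_snd.ae (sig_ae hd)] with p hp
    exact h _ _ hp
  have h2 : MeasurableSet {q : (Eu d × Eu d) × Ω |
      P (e q.1.1) q.2 * J * (P (e (q.1.1 + q.1.2)) q.2)ᵀ = 0} := by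
    simp only [← Matrix.ext_iff, Set.ofPred_forall, mul_apply, transpose_apply,
      Matrix.zero_apply]
    refine MeasurableSet.iInter fun a => MeasurableSet.iInter fun b =>
      measurableSet_eq_fun (Finset.measurable_sum _ fun c _ => ?_) measurable_const
    have m1 : Measurable fun q : (Eu d × Eu d) × Ω => (e q.1.1, q.2) := by fun_prop
    have m2 : Measurable fun q : (Eu d × Eu d) × Ω => (e (q.1.1 + q.1.2), q.2) := by fun_prop
    exact (Finset.measurable_sum _ fun d _ => ((hP a d).comp m1).mul_const _).mul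
      ((hP b c).comp m2)
  filter_upwards [(Measure.ae_ae_comm h2).1 h1] with w hw
  exact Measure.ae_ae_of_ae_prod hw

end TA

open TA in
theorem ofT : OfT := by
  intro hDEF hFUN hMEAS hPTS hCHI hLIM hCAU hPW hTR K _ m n ι _ J g F hK hm hR hL hM f hf
  by_contra hne
  obtain ⟨C, ε, U₁, U₂, hε, o1, o2, n1, n2, hb, hd⟩ := hDEF (2 * m) n f (by omega) hf hne
  obtain ⟨e⟩ := exists_iso m
  have o1' : IsOpen (e.symm ⁻¹' U₁) := o1.preimage e.symm.continuous
  have o2' : IsOpen (e.symm ⁻¹' U₂) := o2.preimage e.symm.continuous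
  obtain ⟨Λ, hΛ⟩ := hFUN K m n (fun x => f (e.symm x)) C ε (e.symm ⁻¹' U₁) (e.symm ⁻¹' U₂) hK
    (fun x y h => hf _ _ (by rw [← map_sub, e.symm.norm_map, h]))
    (fun x => by simpa using hb (e.symm x))
    (fun p hp q hq => by simpa [← map_sub] using hd _ hp _ hq)
  obtain ⟨ν, hν⟩ := hMEAS K m n C ε _ _ Λ o1' o2' hΛ
  obtain ⟨pt, hpt⟩ := hPTS K m hK
  obtain ⟨χ, hχ⟩ := hCHI K m n C ε _ _ ν ι F hν hL.cont
  obtain ⟨c1, c2, c3⟩ := hCAU K m n C ε _ _ ν ι J g F χ pt hK hν hR hL hχ hpt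
  obtain ⟨σ, hσ, hlim⟩ := hLIM (Om K m n) (Ec m) (ι × ι) ν
    (fun t j v w => PJ χ F pt j v w t.1 t.2) (fun t j v => c1 _ _ j v) fun t => c2 _ _
  obtain ⟨p1, p2⟩ := hPW K m n C ε _ _ ν ι J g F χ pt σ hL hχ hpt hσ o1' o2'
  have := sfin hν
  have hPJ := fun k => meas_PJ (K := K) hχ.meas hL.cont hpt (σ k)
  obtain ⟨P, hPm, hP⟩ := exists_lim (G := fun k => PJ χ F pt (σ k)) hPJ
  have hG : ∀ v, ∀ᵐ w ∂ν, ∀ a b,
      Tendsto (fun k => PJ χ F pt (σ k) v w a b) atTop (𝓝 (P v w a b)) := fun v => by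
    filter_upwards [hlim v] with w hw a b
    exact hP v w a b (hw (a, b))
  have hO : ∀ v u : Ec m, ‖u‖ = 1 → ∀ᵐ w ∂ν, P v w * J * (P (v + u) w)ᵀ = 0 := fun v u hu => by
    have h0 := fatou (L := fun w => (P v w * J * P (v + u) w * J).trace)
      (fun k => int_trace J (fun a b => c1 a b (σ k) v) fun a b => c1 a b (σ k) (v + u))
      (fun k w => (hTR ι J _ _ hL.sym (p1 _ _ w) (p1 _ _ w)).1)
      (by
        filter_upwards [hG v, hG (v + u)] with w h1 h2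
        exact tendsto_trace J h1 h2)
      ((c3 v u hu).comp hσ)
    filter_upwards [h0, hG v, hG (v + u), hν.ae] with w h h1 h2 hw
    have q1 := (p2 w hw v _ h1).1.1
    have q2 := (p2 w hw (v + u) _ h2).1.1
    have q3 : (P (v + u) w)ᵀ = P (v + u) w := q2.1
    rw [q3]
    exact (hTR ι J _ _ hL.sym q1 q2).2 h
  have me : Measurable e := e.continuous.measurable
  have hG' := swap1 (G := fun k => PJ χ F pt (σ k)) me hPJ hPm hG
  have hO' := swap2 (J := J) (by omega) me hPm fun x z hz => by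
    rw [map_add]
    exact hO _ _ (by rw [e.norm_map, hz])
  have := ae_neBot.2 hν.ne
  obtain ⟨w, hw, hg, ho⟩ := (hν.ae.and (hG'.and hO')).exists
  obtain ⟨S, hS, hSS⟩ := hM (fun x => P (e x) w)
    (fun a b => (hPm a b).comp (me.prodMk measurable_const))
    (by
      filter_upwards [hg] with x hx
      exact (p2 w hw _ _ hx).1) ho
  obtain ⟨x, x1, x2, x3⟩ := exists_pt e hw.1 o1' (n1.preimage e.symm.surjective) (hS.and hg)
  obtain ⟨y, y1, y2, y3⟩ := exists_pt e hw.1 o2' (n2.preimage e.symm.surjective) (hS.and hg)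
  obtain ⟨r1, r2⟩ := (p2 w hw _ _ x3).2 _ _ y3 x1 y1
  rw [hSS x x2 y y2] at r2
  rw [← map_sub, e.norm_map] at r1 r2
  have r3 := le_of_mul_le_mul_left r2 (mul_pos (p2 w hw _ _ x3).1.2.2 (p2 w hw _ _ y3).1.2.2)
  nlinarith

end Pool.Agent.MP_66cee2_co.XT
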