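import Pool.Agent.MP_66cee2_co.XT.Spec
import Pool.Agent.MP_66cee2_co.SL.BENZ

/-! A unit distance preserving map that is not isometric has a defect on two open sets. -/

namespace Pool.Agent.MP_66cee2_co.XT

namespace DEFA

variable {E F : Type} [NormedAddCommGroup E] [InnerProductSpace ℝ E] [NormedAddCommGroup F]
  [InnerProductSpace ℝ F]

omit [InnerProductSpace ℝ F] in
theorem two [FiniteDimensional ℝ E] (hd : 2 ≤ Module.finrank ℝ E) {f : E → F}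
    (h1 : ∀ x y, ‖x - y‖ = 1 → ‖f x - f y‖ = 1) (x y : E) (h : ‖x - y‖ ≤ 2) :
    ‖f x - f y‖ ≤ 2 := by
  obtain ⟨z, hx, hy⟩ := SL.BENZA.apex hd x y 1 (by linarith)
  have h3 := h1 _ _ hx
  have h4 := h1 _ _ hy
  have h5 := norm_sub_le_norm_sub_add_norm_sub (f x) (f z) (f y)
  rw [norm_sub_rev (f x) (f z)] at h5
  linarith

omit [InnerProductSpace ℝ F] in
theorem grow {f : E → F} (h2 : ∀ x y, ‖x - y‖ ≤ 2 → ‖f x - f y‖ ≤ 2) (k : ℕ) :
    ∀ x : E, ‖x‖ ≤ 2 * k → ‖f x‖ ≤ ‖f 0‖ + 2 * k := by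
  induction k with
  | zero =>
    intro x hx
    rw [Nat.cast_zero, mul_zero, norm_le_zero_iff] at hx
    simp [hx]
  | succ k ih =>
    intro x hx
    push_cast at hx ⊢
    have hk : (0 : ℝ) < k + 1 := by positivity
    have h3 : ‖((k : ℝ) + 1)⁻¹ • x‖ ≤ 2 := by
      rw [norm_smul, Real.norm_of_nonneg (by positivity), inv_mul_le_iff₀ hk]
      linarith
    have h4 := ih ((k : ℝ) • ((k : ℝ) + 1)⁻¹ • x) (by
      rw [norm_smul, Real.norm_of_nonneg (by positivity), mul_comm]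
      exact mul_le_mul_of_nonneg_right h3 (by positivity))
    have h5 : x - (k : ℝ) • ((k : ℝ) + 1)⁻¹ • x = ((k : ℝ) + 1)⁻¹ • x := by
      have h := smul_inv_smul₀ hk.ne' x
      rw [add_smul, one_smul] at h
      exact sub_eq_of_eq_add' h.symm
    have h6 := h2 x _ (h5.symm ▸ h3)
    have h7 := norm_le_norm_add_norm_sub' (f x) (f ((k : ℝ) • ((k : ℝ) + 1)⁻¹ • x))
    linarith

theorem main [FiniteDimensional ℝ E] (hd : 2 ≤ Module.finrank ℝ E) {f : E → F}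
    (h1 : ∀ x y, ‖x - y‖ = 1 → ‖f x - f y‖ = 1) (hn : ¬∀ x y, ‖f x - f y‖ = ‖x - y‖) :
    ∃ (C ε : ℝ) (O₁ O₂ : Set E), 0 < ε ∧ IsOpen O₁ ∧ IsOpen O₂ ∧ O₁.Nonempty ∧ O₂.Nonempty ∧
      (∀ x, ‖f x‖ ≤ C + 2 * ‖x‖) ∧ ∀ p ∈ O₁, ∀ q ∈ O₂, ‖f p - f q‖ ≤ ‖p - q‖ - ε := by
  have h2 := two hd h1
  obtain ⟨x, y, hxy, hne⟩ : ∃ x y, ‖x - y‖ = 2 * 1 ∧ ‖f x - f y‖ ≠ 2 * 1 := by
    by_contra hc
    refine hn (SL.BENZA.benz hd one_pos h1 fun x y h => ?_)
    by_contra hc'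
    exact hc ⟨x, y, h, hc'⟩
  rw [mul_one] at hxy hne
  have hlt : ‖f x - f y‖ < 2 := lt_of_le_of_ne (h2 x y hxy.le) hne
  obtain ⟨δ, hδ⟩ : ∃ δ : ℝ, δ = (2 - ‖f x - f y‖) / 8 := ⟨_, rfl⟩
  have hδ0 : 0 < δ := by rw [hδ]; linarith
  have hδ1 : δ ≤ 1 := by
    have := norm_nonneg (f x - f y)
    rw [hδ]; linarith
  have hu : ‖(1 - δ / 2) • (x - y)‖ = 2 - δ := by
    rw [norm_smul, hxy, Real.norm_of_nonneg (by linarith)]; ring
  refine ⟨‖f 0‖ + 2, 4 * δ, Metric.ball (x + (1 - δ / 2) • (x - y)) δ,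
    Metric.ball (y - (1 - δ / 2) • (x - y)) δ, by linarith, Metric.isOpen_ball,
    Metric.isOpen_ball, Metric.nonempty_ball.2 hδ0, Metric.nonempty_ball.2 hδ0, fun z => ?_,
    fun p hp q hq => ?_⟩
  · have hz := norm_nonneg z
    have h3 := grow h2 ⌈‖z‖ / 2⌉₊ z (by linarith [Nat.le_ceil (‖z‖ / 2)])
    have h4 := Nat.ceil_lt_add_one (show 0 ≤ ‖z‖ / 2 by positivity)
    linarith
  · rw [mem_ball_iff_norm] at hp hq
    have h3 := h2 p x (by
      have := norm_add_le (p - (x + (1 - δ / 2) • (x - y))) ((1 - δ / 2) • (x - y))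
      rw [hu, show p - (x + (1 - δ / 2) • (x - y)) + (1 - δ / 2) • (x - y) = p - x by abel] at this
      linarith)
    have h4 := h2 q y (by
      have := norm_sub_le (q - (y - (1 - δ / 2) • (x - y))) ((1 - δ / 2) • (x - y))
      rw [hu, show q - (y - (1 - δ / 2) • (x - y)) - (1 - δ / 2) • (x - y) = q - y by abel] at this
      linarith)
    have h5 := norm_sub_le_norm_sub_add_norm_sub (f p) (f x) (f q)
    have h6 := norm_sub_le_norm_sub_add_norm_sub (f x) (f y) (f q)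
    rw [norm_sub_rev (f y) (f q)] at h6
    have h7 : ‖(3 - δ) • (x - y)‖ = 6 - 2 * δ := by
      rw [norm_smul, hxy, Real.norm_of_nonneg (by linarith)]; ring
    have h8 : (3 - δ) • (x - y) = (p - q) - (p - (x + (1 - δ / 2) • (x - y))) +
        (q - (y - (1 - δ / 2) • (x - y))) := by module
    have h9 := norm_add_le ((p - q) - (p - (x + (1 - δ / 2) • (x - y))))
      (q - (y - (1 - δ / 2) • (x - y)))
    have h10 := norm_sub_le (p - q) (p - (x + (1 - δ / 2) • (x - y)))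
    rw [← h8, h7] at h9
    linarith

end DEFA

theorem rowDEF : RowDEF := fun _ _ _ hd h1 hn => DEFA.main (by simpa using hd) h1 hn

end Pool.Agent.MP_66cee2_co.XT
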