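import Pool.Agent.MP_66cee2_co.XT.Spec

/-! Row `LIM`: a uniform subsequence of an `L^2` Cauchy family converges almost everywhere. -/

namespace Pool.Agent.MP_66cee2_co.XT

open MeasureTheory Filter Topology
open scoped ENNReal

namespace LIMA

theorem eLp_le {Ω : Type} [MeasurableSpace Ω] {ν : Measure Ω} {f : Ω → ℝ} (hf : MemLp f 2 ν)
    {c : ℝ} (hc : 0 ≤ c) (h : ∫ w, f w ^ 2 ∂ν ≤ c ^ 2) : eLpNorm f 2 ν ≤ ENNReal.ofReal c := by
  rw [hf.eLpNorm_eq_integral_rpow_norm (by norm_num) (by norm_num)]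
  refine ENNReal.ofReal_le_ofReal ?_
  have e : ∫ w, ‖f w‖ ^ (2 : ℝ≥0∞).toReal ∂ν = ∫ w, f w ^ 2 ∂ν := by
    congr 1
    funext w
    simp
  rw [e]
  have h0 : 0 ≤ ∫ w, f w ^ 2 ∂ν := integral_nonneg fun w => sq_nonneg _
  calc (∫ w, f w ^ 2 ∂ν) ^ (2 : ℝ≥0∞).toReal⁻¹ ≤ (c ^ 2) ^ (2 : ℝ≥0∞).toReal⁻¹ :=
        Real.rpow_le_rpow h0 h (by simp)
    _ = c := by
        have : (2 : ℝ≥0∞).toReal⁻¹ = ((2 : ℕ) : ℝ)⁻¹ := by simp
        rw [this, Real.pow_rpow_inv_natCast hc (by norm_num)]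

end LIMA

theorem rowLIM : RowLIM := by
  intro Ω V T _ _ ν G hG hC
  choose N hN using fun t (k : ℕ) => hC t (((1 / 2 : ℝ) ^ (k + 1)) ^ 2) (by positivity)
  let σ : ℕ → ℕ := fun k => k + ∑ i ∈ Finset.range (k + 1), ∑ t, N t i
  have hσ : ∀ t K k, K ≤ k → N t K ≤ σ k := by
    intro t K k hk
    have h1 : N t K ≤ ∑ t, N t K :=
      Finset.single_le_sum (f := fun t => N t K) (fun _ _ => Nat.zero_le _) (Finset.mem_univ t)
    have h2 : ∑ t, N t K ≤ ∑ i ∈ Finset.range (k + 1), ∑ t, N t i :=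
      Finset.single_le_sum (f := fun i => ∑ t, N t i) (fun _ _ => Nat.zero_le _)
        (Finset.mem_range.2 (Nat.lt_succ_of_le hk))
    exact (h1.trans h2).trans (Nat.le_add_left _ _)
  refine ⟨σ, tendsto_atTop_mono (fun k => Nat.le_add_right k _) tendsto_id, fun v => ?_⟩
  rw [ae_all_iff]
  intro t
  refine Lp.ae_tendsto_of_cauchy_eLpNorm (p := 2) (f := fun k => G t (σ k) v)
    (B := fun K => ENNReal.ofReal ((1 / 2 : ℝ) ^ K)) (fun k => (hG t _ v).1) (by norm_num) ?_ ?_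
  · rw [← ENNReal.ofReal_tsum_of_nonneg (fun _ => by positivity) summable_geometric_two]
    exact ENNReal.ofReal_ne_top
  · intro K n m hn hm
    refine (LIMA.eLp_le ((hG t _ v).sub (hG t _ v)) (c := (1 / 2 : ℝ) ^ (K + 1)) (by positivity)
      (hN t K _ _ (hσ t K n hn) (hσ t K m hm) v)).trans_lt ?_
    rw [ENNReal.ofReal_lt_ofReal_iff (by positivity), pow_succ]
    have : (0 : ℝ) < (1 / 2 : ℝ) ^ K := by positivity
    linarith

end Pool.Agent.MP_66cee2_co.XT
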