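import Pool.Agent.MP_66cee2_co.XT.Spec

/-! A countable commutative group has an invariant mean. -/

namespace Pool.Agent.MP_66cee2_co.XT

open Filter Topology

noncomputable section

namespace MEANA

variable {G : Type} [AddCommGroup G]

/-- The average along the direction `x`. -/
def T (N : ℕ) (x : G) (φ : G → ℝ) (y : G) : ℝ :=
  (∑ k ∈ Finset.range (N + 1), φ (y + k • x)) / ((N : ℝ) + 1)

/-- The iterated average along a list of directions. -/
def S (N : ℕ) : List G → (G → ℝ) → G → ℝ
  | [], φ => φ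
  | x :: l, φ => T N x (S N l φ)

theorem pos (N : ℕ) : (0 : ℝ) < (N : ℝ) + 1 := by positivity

theorem T_abs (N : ℕ) (x : G) (φ : G → ℝ) (B : ℝ) (h : ∀ y, |φ y| ≤ B) (y : G) :
    |T N x φ y| ≤ B := by
  rw [T, abs_div, abs_of_pos (pos N), div_le_iff₀ (pos N)]
  refine (Finset.abs_sum_le_sum_abs _ _).trans ?_
  refine (Finset.sum_le_sum fun k _ => h (y + k • x)).trans ?_
  simp [mul_comm]

theorem S_abs (N : ℕ) (l : List G) (φ : G → ℝ) (B : ℝ) (h : ∀ y, |φ y| ≤ B) (y : G) :
    |S N l φ y| ≤ B := by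
  induction l generalizing y with
  | nil => exact h y
  | cons x l ih => exact T_abs N x _ B ih y

theorem S_add (N : ℕ) (l : List G) (φ ψ : G → ℝ) (y : G) :
    S N l (fun x => φ x + ψ x) y = S N l φ y + S N l ψ y := by
  induction l generalizing y with
  | nil => rfl
  | cons x l ih => simp only [S, T, ih, Finset.sum_add_distrib, add_div]

theorem S_smul (N : ℕ) (l : List G) (c : ℝ) (φ : G → ℝ) (y : G) :
    S N l (fun x => c * φ x) y = c * S N l φ y := by
  induction l generalizing y with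
  | nil => rfl
  | cons x l ih => simp only [S, T, ih, ← Finset.mul_sum, mul_div_assoc]

theorem S_mono (N : ℕ) (l : List G) (φ ψ : G → ℝ) (h : ∀ x, φ x ≤ ψ x) (y : G) :
    S N l φ y ≤ S N l ψ y := by
  induction l generalizing y with
  | nil => exact h y
  | cons x l ih =>
    simp only [S, T]
    exact div_le_div_of_nonneg_right (Finset.sum_le_sum fun k _ => ih _) (pos N).le

theorem S_const (N : ℕ) (l : List G) (c : ℝ) (y : G) : S N l (fun _ => c) y = c := by
  induction l generalizing y with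
  | nil => rfl
  | cons x l ih =>
    simp only [S, T, ih]
    rw [div_eq_iff (pos N).ne']
    simp [mul_comm]

theorem S_shift (N : ℕ) (l : List G) (φ : G → ℝ) (g y : G) :
    S N l (fun x => φ (x + g)) y = S N l φ (y + g) := by
  induction l generalizing y with
  | nil => rfl
  | cons x l ih => simp only [S, T, ih, add_right_comm]

theorem T_tel (N : ℕ) (x : G) (φ : G → ℝ) (y : G) :
    T N x φ (y + x) - T N x φ y = (φ (y + (N + 1) • x) - φ y) / ((N : ℝ) + 1) := by
  rw [T, T, ← sub_div, ← Finset.sum_sub_distrib]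
  congr 1
  have h := Finset.sum_range_sub (fun k : ℕ => φ (y + k • x)) (N + 1)
  simp only [zero_smul, add_zero] at h
  rw [← h]
  refine Finset.sum_congr rfl fun k _ => ?_
  rw [succ_nsmul, add_assoc, add_comm x]

theorem S_near (N : ℕ) (l : List G) (φ : G → ℝ) (B : ℝ) (h : ∀ y, |φ y| ≤ B) (g : G)
    (hg : g ∈ l) (y : G) : |S N l φ (y + g) - S N l φ y| ≤ 2 * B / ((N : ℝ) + 1) := by
  induction l generalizing y with
  | nil => simp at hg
  | cons x l ih =>
    rcases List.mem_cons.1 hg with rfl | hg'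
    · simp only [S]
      rw [T_tel, abs_div, abs_of_pos (pos N)]
      refine div_le_div_of_nonneg_right ?_ (pos N).le
      have h1 := S_abs N l φ B h (y + (N + 1) • g)
      have h2 := S_abs N l φ B h y
      rw [abs_le] at *
      constructor <;> linarith [h1.1, h1.2, h2.1, h2.2]
    · have e : S N (x :: l) φ (y + g) - S N (x :: l) φ y =
          T N x (fun z => S N l φ (z + g) - S N l φ z) y := by
        simp only [S, T, ← sub_div, ← Finset.sum_sub_distrib, add_right_comm]
      rw [e]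
      exact T_abs N x _ _ (fun z => ih hg' z) y

theorem tend (u : ℕ → ℝ) (B : ℝ) (h : ∀ n, |u n| ≤ B) :
    Tendsto u (hyperfilter ℕ) (𝓝 (limUnder (hyperfilter ℕ : Filter ℕ) u)) := by
  obtain ⟨a, -, ha⟩ := (isCompact_Icc (a := -B) (b := B)).ultrafilter_le_nhds
    ((hyperfilter ℕ).map u) (by
      rw [le_principal_iff]
      exact Filter.mem_map.2 (univ_mem' fun n => abs_le.1 (h n)))
  exact tendsto_nhds_limUnder ⟨a, ha⟩

/-- The `n`-th average. -/
def A (e : ℕ → G) (φ : G → ℝ) (n : ℕ) : ℝ := S n ((List.range n).map e) φ 0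

theorem tendA (e : ℕ → G) {φ : G → ℝ} (h : Bd φ) :
    Tendsto (A e φ) (hyperfilter ℕ) (𝓝 (limUnder (hyperfilter ℕ : Filter ℕ) (A e φ))) := by
  obtain ⟨B, hB⟩ := h
  exact tend _ B fun n => S_abs _ _ _ B hB 0

theorem limU_eq {u : ℕ → ℝ} {a : ℝ} (h : Tendsto u (hyperfilter ℕ) (𝓝 a)) :
    limUnder (hyperfilter ℕ : Filter ℕ) u = a := h.limUnder_eq

end MEANA

open MEANA in
theorem rowMEAN : RowMEAN := by
  intro G _ _
  obtain ⟨e, he⟩ := exists_surjective_nat G
  refine ⟨fun φ => limUnder (hyperfilter ℕ : Filter ℕ) (A e φ), ?_, ?_, ?_, ?_, ?_⟩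
  · intro φ ψ hφ hψ
    refine limU_eq (((tendA e hφ).add (tendA e hψ)).congr fun n => ?_)
    exact (S_add _ _ _ _ _).symm
  · intro c φ hφ
    refine limU_eq (((tendA e hφ).const_mul c).congr fun n => ?_)
    exact (S_smul _ _ _ _ _).symm
  · intro φ ψ hφ hψ h
    exact le_of_tendsto_of_tendsto' (tendA e hφ) (tendA e hψ) fun n => S_mono _ _ _ _ h 0
  · intro c
    refine limU_eq (tendsto_const_nhds.congr fun n => ?_)
    exact (S_const _ _ _ _).symm
  · intro φ g hφ
    obtain ⟨i, rfl⟩ := he g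
    have h0 := tendA e hφ
    obtain ⟨B, hB⟩ := hφ
    have h1 : Tendsto (fun n => A e (fun x => φ (x + e i)) n - A e φ n) atTop (𝓝 0) := by
      have h2 : Tendsto (fun n : ℕ => 2 * B / ((n : ℝ) + 1)) atTop (𝓝 0) :=
        tendsto_const_nhds.div_atTop
          (tendsto_atTop_add_const_right _ _ tendsto_natCast_atTop_atTop)
      refine squeeze_zero_norm' ?_ h2
      filter_upwards [eventually_gt_atTop i] with n hn
      rw [Real.norm_eq_abs, A, A, S_shift]
      exact S_near n _ φ B hB _ (List.mem_map.2 ⟨i, List.mem_range.2 hn, rfl⟩) 0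
    have h3 := (h1.mono_left (Nat.hyperfilter_le_atTop)).add h0
    rw [zero_add] at h3
    exact limU_eq (h3.congr fun n => by ring)

end

end Pool.Agent.MP_66cee2_co.XT
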