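import Pool.Agent.MP_66cee2_co.XT.Spec

/-! Rows TR and ODD. -/

namespace Pool.Agent.MP_66cee2_co.XT

open Matrix
open scoped MatrixOrder

namespace TRA

theorem fac {ι : Type} [Fintype ι] {P : Matrix ι ι ℝ} (h : P.PosSemidef) :
    ∃ A : Matrix ι ι ℝ, P = Aᵀ * A := by
  classical
  obtain ⟨A, hA⟩ := CStarAlgebra.nonneg_iff_eq_star_mul_self.1 h.nonneg
  exact ⟨A, hA⟩

end TRA

theorem rowTR : RowTR := by
  intro ι _ J P Q hJ hP hQ
  obtain ⟨A, rfl⟩ := TRA.fac hP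
  obtain ⟨B, rfl⟩ := TRA.fac hQ
  have e : (Aᵀ * A * J * (Bᵀ * B) * J).trace = ((A * J * Bᵀ) * (A * J * Bᵀ)ᴴ).trace := by
    rw [conjTranspose_eq_transpose_of_trivial, transpose_mul, transpose_mul, transpose_transpose,
      hJ]
    simp only [Matrix.mul_assoc]
    rw [trace_mul_comm Aᵀ]
    simp only [Matrix.mul_assoc]
  rw [e]
  refine ⟨(posSemidef_self_mul_conjTranspose _).trace_nonneg, fun h => ?_⟩
  have hz := trace_mul_conjTranspose_self_eq_zero_iff.1 h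
  calc Aᵀ * A * J * (Bᵀ * B) = Aᵀ * (A * J * Bᵀ) * B := by simp only [Matrix.mul_assoc]
    _ = 0 := by rw [hz]; simp

theorem rowODD : RowODD := by
  intro d n hd h f hf x y
  have hfr : Module.finrank ℝ (Eu (d + 1)) = d + 1 := by simp
  have : Fact (Module.finrank ℝ (Eu (d + 1)) = d + 1) := ⟨hfr⟩
  have h1 : Module.finrank ℝ (ℝ ∙ (y - x) : Submodule ℝ (Eu (d + 1))) ≤ 1 := by
    simpa using finrank_span_le_card (R := ℝ) ({y - x} : Set (Eu (d + 1)))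
  have h2 := Submodule.finrank_add_finrank_orthogonal (ℝ ∙ (y - x) : Submodule ℝ (Eu (d + 1)))
  have h3 : (ℝ ∙ (y - x) : Submodule ℝ (Eu (d + 1)))ᗮ ≠ ⊥ := by
    intro h0
    rw [h0, finrank_bot] at h2
    omega
  obtain ⟨u, hu, hu0⟩ := Submodule.exists_mem_ne_zero_of_ne_bot h3
  have hv : y - x ∈ (ℝ ∙ u : Submodule ℝ (Eu (d + 1)))ᗮ := by
    rw [Submodule.mem_orthogonal_singleton_iff_inner_left]
    exact Submodule.mem_orthogonal_singleton_iff_inner_right.1 hu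
  let b := OrthonormalBasis.fromOrthogonalSpanSingleton (𝕜 := ℝ) d hu0
  let L : Eu d →ₗᵢ[ℝ] Eu (d + 1) :=
    (ℝ ∙ u : Submodule ℝ (Eu (d + 1)))ᗮ.subtypeₗᵢ.comp b.repr.symm.toLinearIsometry
  have hL : L (b.repr ⟨y - x, hv⟩) = y - x := by
    show ((b.repr.symm (b.repr ⟨y - x, hv⟩) : (ℝ ∙ u : Submodule ℝ (Eu (d + 1)))ᗮ) :
      Eu (d + 1)) = y - x
    rw [LinearIsometryEquiv.symm_apply_apply]
  have hd' : ∀ z w : Eu d, ‖(x + L z) - (x + L w)‖ = ‖z - w‖ := fun z w => by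
    rw [add_sub_add_left_eq_sub, ← map_sub, L.norm_map]
  have := h (fun z => f (x + L z)) (fun z w hzw => hf _ _ (by rw [hd', hzw])) 0
    (b.repr ⟨y - x, hv⟩)
  rw [← hd'] at this
  simpa [hL] using this

end Pool.Agent.MP_66cee2_co.XT
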