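import Pool.Agent.MP_66cee2_co.X.Defs
import Pool.Agent.MP_66cee2_co.X.SpecR

/-! Transfer from arbitrary maps to measurable fields of matrices: definitions and rows. -/

namespace Pool.Agent.MP_66cee2_co.XT

open MeasureTheory Filter Topology Matrix

noncomputable section

abbrev Eu (d : ℕ) : Type := EuclideanSpace ℝ (Fin d)

abbrev Ec (m : ℕ) : Type := EuclideanSpace ℂ (Fin m)

/-! ### The two inputs -/

section inputs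

variable {K : Subfield ℂ} {m : ℕ}

/-- A point of `K^m` as a point of the Euclidean space. -/
def em (z : Fin m → K) : Ec m := WithLp.toLp 2 fun j => (z j : ℂ)

/-- All coordinates have absolute value one. -/
def Un (l : Fin m → K) : Prop := ∀ j, ‖(l j : ℂ)‖ = 1

/-- All coordinates are nonzero Gaussian rationals. -/
def Gen (z : Fin m → K) : Prop := (∀ j, (z j : ℂ) ∈ X.kk) ∧ ∀ j, z j ≠ 0

end inputs

/-- Rotation invariant positive definite functions are continuous on the generic points. -/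
def RPD (K : Subfield ℂ) (m : ℕ) : Prop :=
  ∀ φ : (Fin m → K) → ℂ, X.PD φ → (∀ l z : Fin m → K, Un l → φ (l * z) = φ z) →
    ∃ ψ : (Fin m → ℂ) → ℂ, Continuous ψ ∧ ∀ z : Fin m → K, Gen z → φ z = ψ fun j => z j

/-- A lift of `ℝ^n` to a space with a bilinear form `J`; `g` is `J e`. -/
structure Lift {n : ℕ} {ι : Type} [Fintype ι] (J : Matrix ι ι ℝ) (g : ι → ℝ)
    (F : Eu n → ι → ℝ) : Prop where
  sym : Jᵀ = J
  cont : Continuous F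
  ip : ∀ u v, F u ⬝ᵥ J *ᵥ F v = 1 - ‖u - v‖ ^ 2
  one : ∀ u, F u ⬝ᵥ g = 1

/-- The measurable case. -/
def MS (d : ℕ) {ι : Type} [Fintype ι] (J : Matrix ι ι ℝ) (g : ι → ℝ) : Prop :=
  ∀ P : Eu d → Matrix ι ι ℝ, (∀ a b, Measurable fun x => P x a b) →
    (∀ᵐ x, (P x).PosSemidef ∧ (P x * J).trace = g ⬝ᵥ P x *ᵥ g ∧ 0 < g ⬝ᵥ P x *ᵥ g) →
    (∀ᵐ x, ∀ᵐ z ∂X.sig d, P x * J * (P (x + z))ᵀ = 0) →
    ∃ S : Set (Eu d), (∀ᵐ x, x ∈ S) ∧ ∀ x ∈ S, ∀ y ∈ S, (P x *ᵥ g) ⬝ᵥ J *ᵥ (P y *ᵥ g) =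
      (g ⬝ᵥ P x *ᵥ g) * (g ⬝ᵥ P y *ᵥ g) * (1 - ‖x - y‖ ^ 2)

/-- All unit distance preserving maps are isometric. -/
def AllIso (d n : ℕ) : Prop :=
  ∀ f : Eu d → Eu n, (∀ x y, ‖x - y‖ = 1 → ‖f x - f y‖ = 1) → ∀ x y, ‖f x - f y‖ = ‖x - y‖

/-- The result in even dimension. -/
def RowT : Prop :=
  ∀ (K : Subfield ℂ) [Countable K] (m n : ℕ) (ι : Type) [Fintype ι] (J : Matrix ι ι ℝ)
    (g : ι → ℝ) (F : Eu n → ι → ℝ), X.kk ≤ K → 1 ≤ m → RPD K m → Lift J g F →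
    MS (2 * m) J g → AllIso (2 * m) n

def RowODD : Prop := ∀ d n : ℕ, 1 ≤ d → AllIso d n → AllIso (d + 1) n

/-- The measurable theorem in matrix form. -/
def RowBR : Prop :=
  X.SM → ∃ c : ℝ, 1 < c ∧ ∃ d₀ : ℕ, ∀ d n : ℕ, d₀ ≤ d → (n : ℝ) ≤ c ^ d →
    ∃ (J : Matrix (X.Ix n) (X.Ix n) ℝ) (g : X.Ix n → ℝ), Lift J g X.lift ∧ MS d J g

/-! ### The space of configurations -/

/-- Position, rotation and the values of the map. -/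
abbrev Om (K : Subfield ℂ) (m n : ℕ) : Type := Ec m × (Fin m → ℂ) × ((Fin m → K) → Eu n)

section space

variable {K : Subfield ℂ} {m n : ℕ}

def rot (l : Fin m → ℂ) (v : Ec m) : Ec m := WithLp.toLp 2 fun j => l j * v j

/-- The position of the point `v` of the moving frame. -/
def ps (w : Om K m n) (v : Ec m) : Ec m := w.1 + rot w.2.1 v

/-- Change of the frame by `z ↦ a + l z`. -/
def mv (a l : Fin m → K) (w : Om K m n) : Om K m n :=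
  (ps w (em a), fun j => w.2.1 j * (l j : ℂ), fun z => w.2.2 (a + l * z))

def XS (C ε : ℝ) (O₁ O₂ : Set (Ec m)) : Set (Om K m n) :=
  {w | (∀ j, ‖w.2.1 j‖ = 1) ∧ (∀ z, ‖w.2.2 z‖ ≤ C + 2 * ‖ps w (em z)‖) ∧
    (∀ z z', ‖em z - em z'‖ = 1 → ‖w.2.2 z - w.2.2 z'‖ = 1) ∧
    ∀ z z', ps w (em z) ∈ O₁ → ps w (em z') ∈ O₂ → ‖w.2.2 z - w.2.2 z'‖ ≤ ‖em z - em z'‖ - ε}

/-- An invariant measure on the configurations. -/
structure Sy (C ε : ℝ) (O₁ O₂ : Set (Ec m)) (ν : Measure (Om K m n)) : Prop where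
  ae : ∀ᵐ w ∂ν, w ∈ XS C ε O₁ O₂
  ne : ν ≠ 0
  fin : ∀ R : ℝ, ν {w | ‖w.1‖ ≤ R} ≠ ⊤
  inv : ∀ a l, Un l → MeasurePreserving (mv a l) ν ν

/-- Bounded functions that vanish for far positions. -/
def Cl (φ : Om K m n → ℝ) : Prop := ∃ B R : ℝ, ∀ w, |φ w| ≤ B ∧ (R < ‖w.1‖ → φ w = 0)

/-- An invariant positive functional that lives on `S`. -/
structure Fn (S : Set (Om K m n)) (Λ : (Om K m n → ℝ) → ℝ) : Prop where
  add : ∀ φ ψ, Cl φ → Cl ψ → Λ (fun w => φ w + ψ w) = Λ φ + Λ ψ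
  smul : ∀ (c : ℝ) φ, Cl φ → Λ (fun w => c * φ w) = c * Λ φ
  pos : ∀ φ, Cl φ → (∀ w, 0 ≤ φ w) → 0 ≤ Λ φ
  congr : ∀ φ ψ, (∀ w ∈ S, φ w = ψ w) → Λ φ = Λ ψ
  inv : ∀ φ a l, Cl φ → Un l → Λ (fun w => φ (mv a l w)) = Λ φ
  ne : ∃ R : ℝ, ∀ φ, Cl φ → (∀ w, 0 ≤ φ w) → (∀ w ∈ S, ‖w.1‖ ≤ R → 1 ≤ φ w) → 1 ≤ Λ φ

/-- A function of the position and of the value at `z`. -/
def ev (ξ : Ec m × Eu n → ℝ) (z : Fin m → K) (w : Om K m n) : ℝ := ξ (ps w (em z), w.2.2 z)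

/-- The mean of `j + 1` numbers. -/
def av (j : ℕ) (g : ℕ → ℝ) : ℝ := (∑ i ∈ Finset.range (j + 1), g i) / ((j : ℝ) + 1)

/-- Families of rational points near a given point, in general position. -/
structure Pts (pt : ℕ → ℕ → Ec m → Fin m → K) : Prop where
  near : ∀ ε : ℝ, 0 < ε → ∃ N, ∀ j, N ≤ j → ∀ i, i ≤ j → ∀ v, ‖em (pt j i v) - v‖ ≤ ε
  meas : ∀ j i z, MeasurableSet {v | pt j i v = z}
  gen : ∀ j i j' v v', {i' | i' ≤ j' ∧ ¬Gen (pt j' i' v' - pt j i v)}.ncard ≤ m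

/-- The weighted entries of the rank one matrix. -/
def xi {ι : Type} (χ : Ec m → ℝ) (F : Eu n → ι → ℝ) (a b : ι) (p : Ec m × Eu n) : ℝ :=
  χ p.1 * (F p.2 a * F p.2 b)

/-- The averaged field of matrices. -/
def PJ {ι : Type} (χ : Ec m → ℝ) (F : Eu n → ι → ℝ) (pt : ℕ → ℕ → Ec m → Fin m → K) (j : ℕ)
    (v : Ec m) (w : Om K m n) : Matrix ι ι ℝ :=
  Matrix.of fun a b => av j fun i => ev (xi χ F a b) (pt j i v) w

/-- The weight. -/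
structure Wt {ι : Type} (ν : Measure (Om K m n)) (F : Eu n → ι → ℝ) (χ : Ec m → ℝ) : Prop where
  meas : Measurable χ
  low : ∀ R : ℝ, ∃ κ : ℝ, 0 < κ ∧ ∀ a, ‖a‖ ≤ R → κ ≤ χ a
  mem : ∀ a b, MemLp (ev (xi χ F a b) (0 : Fin m → K)) 2 ν

end space

/-! ### Rows -/

def Bd {G : Type} (φ : G → ℝ) : Prop := ∃ B : ℝ, ∀ x, |φ x| ≤ B

/-- An invariant mean. -/
structure Mean {G : Type} [AddCommGroup G] (M : (G → ℝ) → ℝ) : Prop where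
  add : ∀ φ ψ, Bd φ → Bd ψ → M (fun x => φ x + ψ x) = M φ + M ψ
  smul : ∀ (c : ℝ) φ, Bd φ → M (fun x => c * φ x) = c * M φ
  mono : ∀ φ ψ, Bd φ → Bd ψ → (∀ x, φ x ≤ ψ x) → M φ ≤ M ψ
  const : ∀ c : ℝ, M (fun _ => c) = c
  inv : ∀ φ g, Bd φ → M (fun x => φ (x + g)) = M φ

def RowMEAN : Prop := ∀ (G : Type) [AddCommGroup G] [Countable G], ∃ M : (G → ℝ) → ℝ, Mean M

def RowDEF : Prop :=
  ∀ (d n : ℕ) (f : Eu d → Eu n), 2 ≤ d → (∀ x y, ‖x - y‖ = 1 → ‖f x - f y‖ = 1) →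
    (¬∀ x y, ‖f x - f y‖ = ‖x - y‖) →
    ∃ (C ε : ℝ) (O₁ O₂ : Set (Eu d)), 0 < ε ∧ IsOpen O₁ ∧ IsOpen O₂ ∧ O₁.Nonempty ∧ O₂.Nonempty ∧
      (∀ x, ‖f x‖ ≤ C + 2 * ‖x‖) ∧ ∀ p ∈ O₁, ∀ q ∈ O₂, ‖f p - f q‖ ≤ ‖p - q‖ - ε

def RowXS : Prop :=
  ∀ (K : Subfield ℂ) (m n : ℕ) (C ε : ℝ) (O₁ O₂ : Set (Ec m)), IsOpen O₁ → IsOpen O₂ →
    IsClosed (XS C ε O₁ O₂ : Set (Om K m n)) ∧
    (∀ R : ℝ, IsCompact {w : Om K m n | w ∈ XS C ε O₁ O₂ ∧ ‖w.1‖ ≤ R}) ∧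
    ∀ a l : Fin m → K, Un l → Continuous (mv a l : Om K m n → Om K m n) ∧
      ∀ w : Om K m n, w ∈ XS C ε O₁ O₂ →
        mv a l w ∈ XS C ε O₁ O₂ ∧ ‖w.1‖ ≤ ‖(mv a l w).1‖ + ‖em a‖

def RowFUN : Prop :=
  ∀ (K : Subfield ℂ) [Countable K] (m n : ℕ) (f : Ec m → Eu n) (C ε : ℝ) (O₁ O₂ : Set (Ec m)),
    X.kk ≤ K → (∀ x y, ‖x - y‖ = 1 → ‖f x - f y‖ = 1) →
    (∀ x, ‖f x‖ ≤ C + 2 * ‖x‖) → (∀ p ∈ O₁, ∀ q ∈ O₂, ‖f p - f q‖ ≤ ‖p - q‖ - ε) →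
    ∃ Λ : (Om K m n → ℝ) → ℝ, Fn (XS C ε O₁ O₂) Λ

def RowMEAS : Prop :=
  ∀ (K : Subfield ℂ) [Countable K] (m n : ℕ) (C ε : ℝ) (O₁ O₂ : Set (Ec m))
    (Λ : (Om K m n → ℝ) → ℝ), IsOpen O₁ → IsOpen O₂ → Fn (XS C ε O₁ O₂) Λ →
    ∃ ν : Measure (Om K m n), Sy C ε O₁ O₂ ν

def RowCORR : Prop :=
  ∀ (K : Subfield ℂ) (m n : ℕ) (C ε : ℝ) (O₁ O₂ : Set (Ec m)) (ν : Measure (Om K m n)),
    Sy C ε O₁ O₂ ν → RPD K m → ∀ ξ ξ' : Ec m × Eu n → ℝ,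
    MemLp (ev ξ (0 : Fin m → K)) 2 ν → MemLp (ev ξ' (0 : Fin m → K)) 2 ν →
    (∀ z : Fin m → K, MemLp (ev ξ z) 2 ν) ∧
    ∃ (φ : (Fin m → K) → ℝ) (ψ : Ec m → ℝ), Continuous ψ ∧ Bd φ ∧
      (∀ z, Gen z → φ z = ψ (em z)) ∧
      ∀ y y' : Fin m → K, ∫ w, ev ξ y w * ev ξ' y' w ∂ν = φ (y' - y)

def RowPTS : Prop :=
  ∀ (K : Subfield ℂ) (m : ℕ), X.kk ≤ K → ∃ pt : ℕ → ℕ → Ec m → Fin m → K, Pts pt

def RowSPH : Prop :=
  ∀ (K : Subfield ℂ) (m : ℕ), X.kk ≤ K → ∀ δ : ℝ, 0 < δ → ∀ u : Ec m, ‖u‖ = 1 →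
    ∃ z : Fin m → K, Gen z ∧ ‖em z‖ = 1 ∧ ‖em z - u‖ ≤ δ

def RowAVG : Prop :=
  ∀ (K : Subfield ℂ) (m : ℕ) (pt : ℕ → ℕ → Ec m → Fin m → K), Pts pt →
    ∀ (φ : (Fin m → K) → ℝ) (ψ : Ec m → ℝ) (u : Ec m) (ε : ℝ), Continuous ψ → Bd φ →
    (∀ z, Gen z → φ z = ψ (em z)) → 0 < ε →
    ∃ N, ∀ j j', N ≤ j → N ≤ j' → ∀ v,
      |av j (fun i => av j' fun i' => φ (pt j' i' (v + u) - pt j i v)) - ψ u| ≤ ε

def RowCHI : Prop :=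
  ∀ (K : Subfield ℂ) (m n : ℕ) (C ε : ℝ) (O₁ O₂ : Set (Ec m)) (ν : Measure (Om K m n))
    (ι : Type) [Fintype ι] (F : Eu n → ι → ℝ), Sy C ε O₁ O₂ ν → Continuous F → ∃ χ, Wt ν F χ

def RowLIM : Prop :=
  ∀ (Ω V T : Type) [MeasurableSpace Ω] [Fintype T] (ν : Measure Ω) (G : T → ℕ → V → Ω → ℝ),
    (∀ t j v, MemLp (G t j v) 2 ν) →
    (∀ t, ∀ ε : ℝ, 0 < ε → ∃ N, ∀ j j', N ≤ j → N ≤ j' → ∀ v,
      ∫ w, (G t j v w - G t j' v w) ^ 2 ∂ν ≤ ε) →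
    ∃ σ : ℕ → ℕ, Tendsto σ atTop atTop ∧
      ∀ v, ∀ᵐ w ∂ν, ∀ t, ∃ L, Tendsto (fun k => G t (σ k) v w) atTop (𝓝 L)

/-- The averaged fields are Cauchy, and asymptotically orthogonal at unit distance. -/
def RowCAU : Prop :=
  ∀ (K : Subfield ℂ) (m n : ℕ) (C ε : ℝ) (O₁ O₂ : Set (Ec m))
    (ν : Measure (Om K m n)) (ι : Type) [Fintype ι] (J : Matrix ι ι ℝ) (g : ι → ℝ)
    (F : Eu n → ι → ℝ) (χ : Ec m → ℝ) (pt : ℕ → ℕ → Ec m → Fin m → K),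
    X.kk ≤ K → Sy C ε O₁ O₂ ν → RPD K m → Lift J g F → Wt ν F χ → Pts pt →
    (∀ a b j v, MemLp (fun w => PJ χ F pt j v w a b) 2 ν) ∧
    (∀ a b, ∀ η : ℝ, 0 < η → ∃ N, ∀ j j', N ≤ j → N ≤ j' → ∀ v,
      ∫ w, (PJ χ F pt j v w a b - PJ χ F pt j' v w a b) ^ 2 ∂ν ≤ η) ∧
    ∀ v u : Ec m, ‖u‖ = 1 →
      Tendsto (fun j => ∫ w, (PJ χ F pt j v w * J * PJ χ F pt j (v + u) w * J).trace ∂ν)
        atTop (𝓝 0)

/-- Pointwise facts about limits of the averaged fields. -/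
def RowPW : Prop :=
  ∀ (K : Subfield ℂ) (m n : ℕ) (C ε : ℝ) (O₁ O₂ : Set (Ec m)) (ν : Measure (Om K m n))
    (ι : Type) [Fintype ι] (J : Matrix ι ι ℝ) (g : ι → ℝ) (F : Eu n → ι → ℝ) (χ : Ec m → ℝ)
    (pt : ℕ → ℕ → Ec m → Fin m → K) (σ : ℕ → ℕ), Lift J g F → Wt ν F χ → Pts pt →
    Tendsto σ atTop atTop → IsOpen O₁ → IsOpen O₂ →
    (∀ (j : ℕ) (v : Ec m) (w : Om K m n), (PJ χ F pt j v w).PosSemidef) ∧
    ∀ w : Om K m n, w ∈ XS C ε O₁ O₂ → ∀ (v : Ec m) (P : Matrix ι ι ℝ),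
      (∀ a b, Tendsto (fun k => PJ χ F pt (σ k) v w a b) atTop (𝓝 (P a b))) →
      (P.PosSemidef ∧ (P * J).trace = g ⬝ᵥ P *ᵥ g ∧ 0 < g ⬝ᵥ P *ᵥ g) ∧
      ∀ (v' : Ec m) (P' : Matrix ι ι ℝ),
        (∀ a b, Tendsto (fun k => PJ χ F pt (σ k) v' w a b) atTop (𝓝 (P' a b))) →
        ps w v ∈ O₁ → ps w v' ∈ O₂ → ε ≤ ‖v - v'‖ ∧
          (g ⬝ᵥ P *ᵥ g) * (g ⬝ᵥ P' *ᵥ g) * (1 - (‖v - v'‖ - ε) ^ 2) ≤ (P *ᵥ g) ⬝ᵥ J *ᵥ (P' *ᵥ g)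

/-- The trace of a product of two semidefinite matrices twisted by `J`. -/
def RowTR : Prop :=
  ∀ (ι : Type) [Fintype ι] (J P Q : Matrix ι ι ℝ), Jᵀ = J → P.PosSemidef → Q.PosSemidef →
    0 ≤ (P * J * Q * J).trace ∧ ((P * J * Q * J).trace = 0 → P * J * Q = 0)

def OfFUN : Prop := RowMEAN → RowFUN
def OfMEAS : Prop := RowXS → RowMEAS
def OfCAU : Prop := RowCORR → RowSPH → RowAVG → RowCAU
def OfT : Prop :=
  RowDEF → RowFUN → RowMEAS → RowPTS → RowCHI → RowLIM → RowCAU → RowPW → RowTR → RowT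
def OfFIN : Prop := RowT → RowODD → RowBR → X.SRPD → X.SM → X.SFinal

/-! ### Basic facts -/

section kit

variable {K : Subfield ℂ} {m n : ℕ}

@[simp] theorem em_apply (z : Fin m → K) (j : Fin m) : em z j = (z j : ℂ) := rfl

@[simp] theorem rot_apply (l : Fin m → ℂ) (v : Ec m) (j : Fin m) : rot l v j = l j * v j := rfl

theorem em_zero : em (0 : Fin m → K) = 0 := by ext j; simp

theorem em_add (z z' : Fin m → K) : em (z + z') = em z + em z' := by ext j; simp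

theorem em_sub (z z' : Fin m → K) : em (z - z') = em z - em z' := by ext j; simp

theorem em_mul (l z : Fin m → K) : em (l * z) = rot (fun j => (l j : ℂ)) (em z) := by
  ext j; simp

theorem rot_add (l : Fin m → ℂ) (v v' : Ec m) : rot l (v + v') = rot l v + rot l v' := by
  ext j; simp [mul_add]

theorem rot_sub (l : Fin m → ℂ) (v v' : Ec m) : rot l (v - v') = rot l v - rot l v' := by
  ext j; simp [mul_sub]

theorem norm_rot {l : Fin m → ℂ} (hl : ∀ j, ‖l j‖ = 1) (v : Ec m) : ‖rot l v‖ = ‖v‖ := by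
  simp [EuclideanSpace.norm_eq, hl]

theorem ps_sub (w : Om K m n) (v v' : Ec m) : ps w v - ps w v' = rot w.2.1 (v - v') := by
  rw [ps, ps, rot_sub]; abel

theorem ps_zero (w : Om K m n) : ps w 0 = w.1 := by ext j; simp [ps]

theorem ps_mv (a l z : Fin m → K) (w : Om K m n) :
    ps (mv a l w) (em z) = ps w (em (a + l * z)) := by
  ext j; simp [ps, mv]; ring

theorem ev_mv (ξ : Ec m × Eu n → ℝ) (a l z : Fin m → K) (w : Om K m n) :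
    ev ξ z (mv a l w) = ev ξ (a + l * z) w := by
  rw [ev, ev, ps_mv]; rfl

theorem un_one : Un (1 : Fin m → K) := fun j => by simp

theorem un_neg_one : Un (-1 : Fin m → K) := fun j => by simp

theorem continuous_ps : Continuous fun p : Om K m n × Ec m => ps p.1 p.2 := by
  unfold ps rot
  fun_prop

theorem measurable_ev {ξ : Ec m × Eu n → ℝ} (hξ : Measurable ξ) (z : Fin m → K) :
    Measurable (ev ξ z : Om K m n → ℝ) := by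
  refine hξ.comp (Measurable.prodMk ?_ (by fun_prop))
  unfold ps rot
  fun_prop

theorem measurable_xi {ι : Type} {χ : Ec m → ℝ} {F : Eu n → ι → ℝ} (hχ : Measurable χ)
    (hF : Continuous F) (a b : ι) : Measurable (xi χ F a b) := by
  have h : ∀ c, Measurable fun p : Ec m × Eu n => F p.2 c := fun c =>
    ((continuous_apply c).comp hF).measurable.comp measurable_snd
  exact (hχ.comp measurable_fst).mul ((h a).mul (h b))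

end kit

end

end Pool.Agent.MP_66cee2_co.XT
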