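import Pool.Agent.MP_66cee2_co.XT.Spec

/-! The measurable theorem in matrix form, and the passage to the final statement. -/

namespace Pool.Agent.MP_66cee2_co.XT

open MeasureTheory Filter Topology Matrix

namespace BRA

variable {n : ℕ}

/-- the matrix of the Lorentz form -/
def JM (n : ℕ) : Matrix (X.Ix n) (X.Ix n) ℝ := fun a b => X.Jv (Pi.single b 1) a

lemma JM_mulVec (v : X.Ix n → ℝ) : JM n *ᵥ v = X.Jv v := by
  funext a
  rcases a with i | b
  · simp [mulVec, dotProduct, JM, X.Jv, Pi.single_apply]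
  · simp [mulVec, dotProduct, JM, X.Jv, Pi.single_apply]

lemma JM_sym : (JM n)ᵀ = JM n := by
  ext a b
  rcases a with i | a <;> rcases b with j | b
  · simp [JM, X.Jv, Pi.single_apply, eq_comm]
  · simp [JM, X.Jv]
  · simp [JM, X.Jv]
  · cases a <;> cases b <;> simp [JM, X.Jv]

lemma cont_lift : Continuous (X.lift : Eu n → X.Ix n → ℝ) := by
  refine continuous_pi fun a => ?_
  rcases a with i | b
  · simp only [X.lift]; fun_prop
  · cases b <;> simp only [X.lift] <;> fun_prop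

lemma lift_JM : Lift (JM n) (Pi.single X.sI 1) X.lift where
  sym := JM_sym
  cont := cont_lift
  ip u v := by rw [JM_mulVec]; exact X.lz_lift u v
  one u := by simp [X.lift]

lemma trace_eq (P : Matrix (X.Ix n) (X.Ix n) ℝ) : (P * JM n).trace = X.trJ P := by
  rw [trace_mul_comm, X.trJ, ← trace_transpose, transpose_mul, JM_sym, trace_mul_comm, trace]
  refine Finset.sum_congr rfl fun a _ => ?_
  rw [← JM_mulVec]
  simp [mul_apply, mulVec, dotProduct]

lemma quad (P : Matrix (X.Ix n) (X.Ix n) ℝ) :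
    Pi.single X.sI 1 ⬝ᵥ P *ᵥ Pi.single X.sI 1 = P X.sI X.sI := by
  simp

lemma entry (P Q : Matrix (X.Ix n) (X.Ix n) ℝ) (a b : X.Ix n) :
    (P * JM n * Qᵀ) a b = X.lz (P a) (Q b) := by
  rw [X.lz, ← JM_mulVec, Matrix.mul_assoc]
  simp [mul_apply, mulVec, dotProduct]

end BRA

open BRA in
theorem rowBR : RowBR := by
  rintro ⟨c, hc, d₀, h⟩
  refine ⟨c, hc, d₀, fun d n hd hn => ⟨JM n, Pi.single X.sI 1, lift_JM, ?_⟩⟩
  intro P hm hp ho
  have hF : X.Field P := by
    refine ⟨hm, ?_, ?_⟩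
    · filter_upwards [hp] with x hx
      rw [quad, trace_eq] at hx
      exact ⟨hx.1, hx.2.2, hx.2.1⟩
    · filter_upwards [ho] with x hx
      filter_upwards [hx] with z hz a b
      rw [← entry, hz]
      rfl
  obtain ⟨g, hg, hP⟩ := h d n hd hn P hF
  refine ⟨_, hP, fun x hx y hy => ?_⟩
  have e : ∀ z, (∀ a b, P z a b = P z X.sI X.sI * X.lift (g z) a * X.lift (g z) b) →
      P z *ᵥ Pi.single X.sI 1 = P z X.sI X.sI • X.lift (g z) := fun z hz => by
    funext a
    have := hz a X.sI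
    simpa [X.lift] using this
  rw [quad, quad, e x hx, e y hy, mulVec_smul, smul_dotProduct, dotProduct_smul, lift_JM.ip, hg]
  simp only [smul_eq_mul]
  ring

theorem ofFIN : OfFIN := by
  intro hT hO hB hR hM
  obtain ⟨c, hc, d₀, h⟩ := hB hM
  have hev : ∀ m n : ℕ, d₀ ≤ 2 * m → 1 ≤ m → (n : ℝ) ≤ c ^ (2 * m) → AllIso (2 * m) n := by
    intro m n hd hm hn
    obtain ⟨J, g, hL, hS⟩ := h (2 * m) n hd hn
    exact hT X.KK m n _ J g _ X.kk_le_KK hm
      (fun φ h1 h2 => (hR m φ h1 h2).imp fun ψ hψ => ⟨hψ.1, fun z hz => hψ.2 z hz.1 hz.2⟩) hL hS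
  have hs : 1 < √c := by rwa [Real.lt_sqrt zero_le_one, one_pow]
  have hp : ∀ d k : ℕ, d ≤ 2 * k → √c ^ d ≤ c ^ k := fun d k hk => by
    calc √c ^ d ≤ √c ^ (2 * k) := pow_le_pow_right₀ hs.le hk
      _ = c ^ k := by rw [pow_mul, Real.sq_sqrt (by linarith)]
  refine ⟨√c, hs, d₀ + 3, fun d n hd hn => ?_⟩
  obtain ⟨m, rfl | rfl⟩ := Nat.even_or_odd' d
  · exact hev m n (by omega) (by omega) (hn.trans (hp _ _ (by omega)))
  · exact hO _ n (by omega) (hev m n (by omega) (by omega) (hn.trans (hp _ _ (by omega))))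

end Pool.Agent.MP_66cee2_co.XT
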