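import Pool.Agent.MP_66cee2_co.XT.Spec

/-! Families of rational points near a given point, in general position. -/

namespace Pool.Agent.MP_66cee2_co.XT

namespace PTSA

theorem fl (j : ℕ) (x : ℝ) :
    |(⌊((j : ℝ) + 1) * x⌋ : ℝ) / ((j : ℝ) + 1) - x| ≤ 1 / ((j : ℝ) + 1) := by
  have h : (0 : ℝ) < j + 1 := by positivity
  rw [div_sub' h.ne', abs_div, abs_of_pos h]
  gcongr
  rw [abs_le]
  constructor <;> linarith [Int.floor_le (((j : ℝ) + 1) * x), Int.lt_floor_add_one (((j : ℝ) + 1) * x)]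

/-- The point with the given integer coordinates, shifted by `i / (j + 1) ^ 2`. -/
noncomputable def pp (j i : ℕ) (a : ℤ × ℤ) : X.kk :=
  ⟨⟨(a.1 : ℝ) / (j + 1) + i / (j + 1) ^ 2, (a.2 : ℝ) / (j + 1)⟩,
    ⟨a.1 / (j + 1) + i / (j + 1) ^ 2, by simp⟩, a.2 / (j + 1), by simp⟩

/-- The integer coordinates. -/
noncomputable def fz (j : ℕ) (z : ℂ) : ℤ × ℤ := (⌊((j : ℝ) + 1) * z.re⌋, ⌊((j : ℝ) + 1) * z.im⌋)

theorem near {j i : ℕ} (h : i ≤ j) (z : ℂ) : ‖(pp j i (fz j z) : ℂ) - z‖ ≤ 3 / ((j : ℝ) + 1) := by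
  refine (Complex.norm_le_abs_re_add_abs_im _).trans ?_
  have h1 := abs_le.1 (fl j z.re)
  have h2 := fl j z.im
  have h3 : (i : ℝ) / (j + 1) ^ 2 ≤ 1 / ((j : ℝ) + 1) := by
    have : (i : ℝ) ≤ j := by exact_mod_cast h
    rw [div_le_div_iff₀ (by positivity) (by positivity)]
    nlinarith [(Nat.cast_nonneg j : (0 : ℝ) ≤ j)]
  have h4 : 0 ≤ (i : ℝ) / (j + 1) ^ 2 := by positivity
  have h5 : 3 / ((j : ℝ) + 1) = 2 * (1 / ((j : ℝ) + 1)) + 1 / ((j : ℝ) + 1) := by ring
  rw [h5]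
  refine add_le_add (abs_le.2 ?_) h2
  simp only [pp, fz, Complex.sub_re]
  constructor <;> linarith [h1.1, h1.2]

end PTSA

open PTSA in
theorem rowPTS : RowPTS := by
  intro K m hK
  refine ⟨fun j i v k => Subfield.inclusion hK (pp j i (fz j (v k))), fun ε hε => ?_,
    fun j i z => ?_, fun j i j' v v' => ?_⟩
  · obtain ⟨N, hN⟩ := exists_nat_ge (3 * (m + 1) / ε)
    refine ⟨N, fun j hj i hi v => ?_⟩
    have h1 : (N : ℝ) ≤ j := by exact_mod_cast hj
    have h2 : ((m : ℝ) + 1) * (3 / ((j : ℝ) + 1)) ≤ ε := by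
      rw [div_le_iff₀ hε] at hN
      rw [← mul_div_assoc, div_le_iff₀ (by positivity)]
      nlinarith
    rw [EuclideanSpace.norm_eq, Real.sqrt_le_left hε.le]
    refine (Finset.sum_le_card_nsmul _ _ ((3 / ((j : ℝ) + 1)) ^ 2) fun k _ =>
      pow_le_pow_left₀ (norm_nonneg _) (near hi (v k)) 2).trans
      (le_trans ?_ (pow_le_pow_left₀ (by positivity) h2 2))
    rw [mul_pow, Finset.card_fin, nsmul_eq_mul]
    gcongr
    nlinarith [(Nat.cast_nonneg m : (0 : ℝ) ≤ m)]
  · have : Measurable fun (v : Ec m) k => fz j (v k) := by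
      unfold fz
      fun_prop
    exact this (Set.to_countable
      {a : Fin m → ℤ × ℤ | (fun k => Subfield.inclusion hK (pp j i (a k))) = z}).measurableSet
  · have : ∀ i' : ℕ, ∃ k : Option (Fin m), ¬ Gen ((fun k => Subfield.inclusion hK
        (pp j' i' (fz j' (v' k)))) - fun k => Subfield.inclusion hK (pp j i (fz j (v k)))) →
        ∃ k', k = some k' ∧ pp j' i' (fz j' (v' k')) = pp j i (fz j (v k')) := by
      intro i'
      by_cases h : ∃ k', pp j' i' (fz j' (v' k')) = pp j i (fz j (v k'))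
      · obtain ⟨k, hk⟩ := h
        exact ⟨some k, fun _ => ⟨k, rfl, hk⟩⟩
      · refine ⟨none, fun h' => absurd ⟨fun k => ?_, fun k e => h ⟨k, ?_⟩⟩ h'⟩
        · exact (pp j' i' (fz j' (v' k)) - pp j i (fz j (v k))).2
        · exact (Subfield.inclusion hK).injective (sub_eq_zero.1 e)
    choose κ hκ using this
    refine (Set.ncard_le_ncard_of_injOn κ (t := Set.range some) (fun a ha => ?_)
      (fun a ha b hb e => ?_) (Set.toFinite _)).trans ?_
    · obtain ⟨k, h, -⟩ := hκ a ha.2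
      exact ⟨k, h.symm⟩
    · obtain ⟨k, h, h1⟩ := hκ a ha.2
      obtain ⟨k', h', h2⟩ := hκ b hb.2
      obtain rfl : k = k' := Option.some.inj (h.symm.trans (e.trans h'))
      have := congrArg (fun z : X.kk => (z : ℂ).re) (h1.trans h2.symm)
      simp only [pp, add_right_inj] at this
      exact_mod_cast (div_left_inj' (by positivity)).1 this
    · rw [Set.ncard_range_of_injective (Option.some_injective _)]
      simp

end Pool.Agent.MP_66cee2_co.XT
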