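import Pool.Agent.MP_66cee2_co.XT.Spec

/-! Row XS: the space of admissible configurations. -/

namespace Pool.Agent.MP_66cee2_co.XT

open Set Metric

namespace XSA

variable {K : Subfield ℂ} {m n : ℕ} {C ε : ℝ} {O₁ O₂ : Set (Ec m)}

theorem cps (v : Ec m) : Continuous fun w : Om K m n => ps w v :=
  continuous_ps.comp (continuous_id.prodMk continuous_const)

theorem closed (h1 : IsOpen O₁) (h2 : IsOpen O₂) : IsClosed (XS C ε O₁ O₂ : Set (Om K m n)) := by
  have c := @cps K m n
  simp only [XS, ofPred_and, ofPred_forall]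
  refine (isClosed_iInter fun j => isClosed_eq (by fun_prop) continuous_const).inter
    ((isClosed_iInter fun z => isClosed_le (by fun_prop) (by fun_prop)).inter
      ((isClosed_iInter fun z => isClosed_iInter fun z' => isClosed_iInter fun _ =>
        isClosed_eq (by fun_prop) continuous_const).inter
        (isClosed_iInter fun z => isClosed_iInter fun z' => ?_)))
  exact isClosed_imp (h1.preimage (c _)) (isClosed_imp (h2.preimage (c _))
    (isClosed_le (by fun_prop) continuous_const))

theorem compact (h1 : IsOpen O₁) (h2 : IsOpen O₂) (R : ℝ) :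
    IsCompact {w : Om K m n | w ∈ XS C ε O₁ O₂ ∧ ‖w.1‖ ≤ R} := by
  refine ((isCompact_closedBall (0 : Ec m) R).prod
    ((isCompact_univ_pi fun _ : Fin m => isCompact_closedBall (0 : ℂ) 1).prod
      (isCompact_univ_pi fun z : Fin m → K =>
        isCompact_closedBall (0 : Eu n) (C + 2 * (R + ‖em z‖))))).of_isClosed_subset
    ((closed h1 h2).inter (isClosed_le continuous_fst.norm continuous_const)) ?_
  rintro w ⟨⟨a, b, -⟩, c⟩
  refine ⟨mem_closedBall_zero_iff.2 c, fun j _ => mem_closedBall_zero_iff.2 (a j).le,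
    fun z _ => mem_closedBall_zero_iff.2 ((b z).trans ?_)⟩
  have := norm_add_le w.1 (rot w.2.1 (em z))
  rw [norm_rot a] at this
  rw [ps]
  linarith

theorem dist_mv (a : Fin m → K) {l : Fin m → K} (hl : Un l) (z z' : Fin m → K) :
    ‖em (a + l * z) - em (a + l * z')‖ = ‖em z - em z'‖ := by
  rw [em_add, em_add, add_sub_add_left_eq_sub, em_mul, em_mul, ← rot_sub, norm_rot hl]

end XSA

open XSA in
theorem rowXS : RowXS := by
  intro K m n C ε O₁ O₂ h1 h2
  refine ⟨closed h1 h2, compact h1 h2, fun a l hl => ⟨?_, fun w ⟨p, q, r, s⟩ =>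
    ⟨⟨fun j => ?_, fun z => ?_, fun z z' h => r _ _ ((dist_mv a hl z z').trans h),
      fun z z' h h' => ?_⟩, ?_⟩⟩⟩
  · exact (cps _).prodMk (Continuous.prodMk (by fun_prop) (by fun_prop))
  · exact (norm_mul _ _).trans (by rw [p, hl, mul_one])
  · rw [ps_mv]
    exact q _
  · rw [ps_mv] at h h'
    rw [← dist_mv a hl]
    exact s _ _ h h'
  · have := norm_sub_le (ps w (em a)) (rot w.2.1 (em a))
    rwa [norm_rot p, show ps w (em a) - rot w.2.1 (em a) = w.1 from add_sub_cancel_right _ _]
      at this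

end Pool.Agent.MP_66cee2_co.XT
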