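import Pool.Agent.MP_66cee2_co.XT.AVG
import Pool.Agent.MP_66cee2_co.XT.BR
import Pool.Agent.MP_66cee2_co.XT.CAU
import Pool.Agent.MP_66cee2_co.XT.CHI
import Pool.Agent.MP_66cee2_co.XT.CORR
import Pool.Agent.MP_66cee2_co.XT.DEF
import Pool.Agent.MP_66cee2_co.XT.FUN
import Pool.Agent.MP_66cee2_co.XT.LIM
import Pool.Agent.MP_66cee2_co.XT.MEAN
import Pool.Agent.MP_66cee2_co.XT.MEAS
import Pool.Agent.MP_66cee2_co.XT.PTS
import Pool.Agent.MP_66cee2_co.XT.PW
import Pool.Agent.MP_66cee2_co.XT.SPH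
import Pool.Agent.MP_66cee2_co.XT.T
import Pool.Agent.MP_66cee2_co.XT.TR
import Pool.Agent.MP_66cee2_co.XT.XS

/-! The transfer theorem: rigidity and the measurable case give the general case. -/

namespace Pool.Agent.MP_66cee2_co.XT

theorem rowT : RowT :=
  ofT rowDEF (ofFUN rowMEAN) (ofMEAS rowXS) rowPTS rowCHI rowLIM (ofCAU rowCORR rowSPH rowAVG)
    rowPW rowTR

theorem sFinal (hR : X.SRPD) (hM : X.SM) : X.SFinal := ofFIN rowT rowODD rowBR hR hM

end Pool.Agent.MP_66cee2_co.XT
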