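import Pool.Agent.MP_66cee2_co.XT.Spec

/-! Generic Gaussian rational points are dense in the unit sphere. -/

namespace Pool.Agent.MP_66cee2_co.XT

open Filter Topology

noncomputable section

namespace SPHA

variable {m : ℕ}

/-- The reflection of a basis vector in the hyperplane orthogonal to `t`. -/
def Z (k : Fin m) (t : Ec m) : Ec m :=
  EuclideanSpace.single k 1 - (2 * (t k).re / ‖t‖ ^ 2 : ℝ) • t

theorem nsq (k : Fin m) (y : Ec m) :
    ‖EuclideanSpace.single k (1 : ℂ) - y‖ ^ 2 = 1 - 2 * (y k).re + ‖y‖ ^ 2 := by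
  rw [norm_sub_sq (𝕜 := ℂ), EuclideanSpace.inner_single_left]
  simp

theorem norm_Z (k : Fin m) (t : Ec m) (ht : t ≠ 0) : ‖Z k t‖ = 1 := by
  have h : ‖t‖ ≠ 0 := norm_ne_zero_iff.mpr ht
  have h1 : ‖Z k t‖ ^ 2 = 1 := by
    rw [Z, nsq, norm_smul, mul_pow, Real.norm_eq_abs, sq_abs]
    simp only [PiLp.smul_apply, Complex.smul_re, smul_eq_mul]
    field_simp
    ring
  exact (pow_eq_one_iff_of_nonneg (norm_nonneg _) two_ne_zero).mp h1

theorem cont_Z (k : Fin m) (t : Ec m) (ht : t ≠ 0) : ContinuousAt (Z k) t := by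
  have h : ‖t‖ ^ 2 ≠ 0 := pow_ne_zero _ (norm_ne_zero_iff.mpr ht)
  have h1 : ContinuousAt (fun t : Ec m => (2 * (t k).re / ‖t‖ ^ 2 : ℝ)) t :=
    ContinuousAt.div (f := fun t : Ec m => 2 * (t k).re) (g := fun t : Ec m => ‖t‖ ^ 2)
      (by fun_prop) (by fun_prop) h
  exact continuousAt_const.sub (h1.smul continuousAt_id)

theorem surj (k : Fin m) (u : Ec m) (hu : ‖u‖ = 1) : ∃ t, t ≠ 0 ∧ Z k t = u := by
  by_cases h : EuclideanSpace.single k (1 : ℂ) = u
  · refine ⟨EuclideanSpace.single k Complex.I, fun h0 => ?_, ?_⟩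
    · have := congrArg (fun v : Ec m => v k) h0
      simp at this
    · simp [Z, h]
  · have h0 := sub_ne_zero.mpr h
    refine ⟨_, h0, ?_⟩
    have h1 : ‖EuclideanSpace.single k (1 : ℂ) - u‖ ^ 2 ≠ 0 :=
      pow_ne_zero _ (norm_ne_zero_iff.mpr h0)
    have h2 : 2 * ((EuclideanSpace.single k (1 : ℂ) - u) k).re =
        ‖EuclideanSpace.single k (1 : ℂ) - u‖ ^ 2 := by
      rw [nsq, hu]
      simp
      ring
    rw [Z, h2, div_self h1, one_smul, sub_sub_cancel]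

theorem dense : Dense {t : Ec m | ∀ j, (∃ a : ℚ, a ≠ 0 ∧ (t j).re = a) ∧
    ∃ b : ℚ, b ≠ 0 ∧ (t j).im = b} := by
  have h1 : Dense (Set.range ((↑) : ℚ → ℝ) \ {0}) :=
    Dense.sdiff_singleton Rat.denseRange_cast 0
  have h2 := dense_pi (Set.univ : Set (Fin m)) fun _ _ => h1.prod h1
  let f : (Fin m → ℝ × ℝ) → Ec m := fun x => WithLp.toLp 2 fun j => (x j).1 + (x j).2 * Complex.I
  have hf : Continuous f := by fun_prop
  have hs : Function.Surjective f := fun t =>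
    ⟨fun j => ((t j).re, (t j).im), by ext j; simp [f]⟩
  refine (hs.denseRange.dense_image hf h2).mono ?_
  rintro _ ⟨x, hx, rfl⟩ j
  obtain ⟨⟨⟨a, ha⟩, ha0⟩, ⟨b, hb⟩, hb0⟩ := hx j trivial
  refine ⟨⟨a, fun h => ha0 ?_, by simp [f, ha]⟩, b, fun h => hb0 ?_, by simp [f, hb]⟩
  · simp [← ha, h]
  · simp [← hb, h]

end SPHA

open SPHA in
theorem rowSPH : RowSPH := by
  intro K m hK δ hδ u hu
  have hm : Nonempty (Fin m) := by
    by_contra h
    rw [not_nonempty_iff] at h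
    rw [Subsingleton.elim u 0, norm_zero] at hu
    exact zero_ne_one hu
  obtain ⟨k⟩ := hm
  obtain ⟨t0, ht0, rfl⟩ := surj k u hu
  obtain ⟨t, ht, hd⟩ := dense.inter_nhds_nonempty
    ((cont_Z k t0 ht0).preimage_mem_nhds (Metric.closedBall_mem_nhds _ hδ))
  choose a ha0 ha using fun j => (ht j).1
  choose b hb0 hb using fun j => (ht j).2
  have htne : t ≠ 0 := fun h => by
    have := ha k
    rw [h] at this
    exact ha0 k (by simpa using this.symm)
  have hn : ‖t‖ ^ 2 = ((∑ j, (a j ^ 2 + b j ^ 2) : ℚ) : ℝ) := by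
    rw [EuclideanSpace.norm_sq_eq]
    push_cast
    refine Finset.sum_congr rfl fun j _ => ?_
    rw [Complex.sq_norm, Complex.normSq_apply, ha, hb]; ring
  obtain ⟨c, hc⟩ : ∃ c : ℚ, 2 * (t k).re / ‖t‖ ^ 2 = c :=
    ⟨2 * a k / ∑ j, (a j ^ 2 + b j ^ 2), by rw [hn, ha]; push_cast; rfl⟩
  have hc0 : c ≠ 0 := by
    rintro rfl
    rw [ha, Rat.cast_zero, div_eq_zero_iff] at hc
    rcases hc with h | h
    · exact ha0 k (by simpa using h)
    · exact htne (by simpa using h)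
  have him : ∀ j, (Z k t j).im = ((-(c * b j) : ℚ) : ℝ) := fun j => by
    rw [Z, hc]
    by_cases h : j = k <;> simp [h, hb]
  have hre : ∀ j, (Z k t j).re = (((if j = k then 1 else 0) - c * a j : ℚ) : ℝ) := fun j => by
    rw [Z, hc]
    by_cases h : j = k <;> simp [h, ha]
  have hk : ∀ j, Z k t j ∈ X.kk := fun j => ⟨⟨_, hre j⟩, _, him j⟩
  have he : em (fun j => (⟨Z k t j, hK (hk j)⟩ : K)) = Z k t := rfl
  refine ⟨fun j => ⟨Z k t j, hK (hk j)⟩, ⟨hk, fun j h => ?_⟩, ?_, ?_⟩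
  · have h1 : Z k t j = 0 := congrArg Subtype.val h
    have h2 := him j
    rw [h1] at h2
    have h3 : c = 0 ∨ b j = 0 := by simpa using h2.symm
    exact h3.elim hc0 (hb0 j)
  · rw [he, norm_Z k t htne]
  · rw [he, ← dist_eq_norm]
    exact hd

end

end Pool.Agent.MP_66cee2_co.XT
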